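import Mathlib

/-!
# A Mermin-type inequality for one hidden value, and a sorted encoding (helper234)
-/

set_option autoImplicit false

noncomputable section

namespace Pool.Agent.Q234.CE

open Finset
open scoped Classical

lemma vtx2 {a b u v K : ℝ} (ha : |a| ≤ 1) (hb : |b| ≤ 1) (h1 : u + v ≤ K) (h2 : u - v ≤ K)
    (h3 : -u + v ≤ K) (h4 : -u - v ≤ K) : a * u + b * v ≤ K := by
  have e1 : a * u ≤ |u| := by
    calc a * u ≤ |a * u| := le_abs_self _
      _ = |a| * |u| := abs_mul _ _
      _ ≤ 1 * |u| := mul_le_mul_of_nonneg_right ha (abs_nonneg _)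
      _ = |u| := one_mul _
  have e2 : b * v ≤ |v| := by
    calc b * v ≤ |b * v| := le_abs_self _
      _ = |b| * |v| := abs_mul _ _
      _ ≤ 1 * |v| := mul_le_mul_of_nonneg_right hb (abs_nonneg _)
      _ = |v| := one_mul _
  rcases abs_cases u with ⟨hu, _⟩ | ⟨hu, _⟩ <;> rcases abs_cases v with ⟨hv, _⟩ | ⟨hv, _⟩ <;>
    linarith

lemma mermin_real {A0 A1 B0 B1 C0 C1 : ℝ} (hA0 : |A0| ≤ 1) (hA1 : |A1| ≤ 1) (hB0 : |B0| ≤ 1)
    (hB1 : |B1| ≤ 1) (hC0 : |C0| ≤ 1) (hC1 : |C1| ≤ 1) {p q r t : ℝ} (hp : p = 1 ∨ p = -1)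
    (hq : q = 1 ∨ q = -1) (hr : r = 1 ∨ r = -1) (ht : t = 1 ∨ t = -1) (h : p * q * r * t = -1) :
    p * A0 * B0 * C0 + q * A0 * B1 * C1 + r * A1 * B0 * C1 + t * A1 * B1 * C0 ≤ 2 := by
  have hC0' := abs_le.1 hC0
  have hC1' := abs_le.1 hC1
  have e : p * A0 * B0 * C0 + q * A0 * B1 * C1 + r * A1 * B0 * C1 + t * A1 * B1 * C0 =
      A0 * (B0 * (p * C0) + B1 * (q * C1)) + A1 * (B0 * (r * C1) + B1 * (t * C0)) := by ring
  rw [e]
  refine vtx2 hA0 hA1 ?_ ?_ ?_ ?_
  · have e1 : (B0 * (p * C0) + B1 * (q * C1)) + (B0 * (r * C1) + B1 * (t * C0)) =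
      B0 * (p * C0 + r * C1) + B1 * (q * C1 + t * C0) := by ring
    rw [e1]
    rcases hp with rfl | rfl <;> rcases hq with rfl | rfl <;> rcases hr with rfl | rfl <;>
      rcases ht with rfl | rfl <;> first | (exfalso; norm_num at h; done) |
      (refine vtx2 hB0 hB1 ?_ ?_ ?_ ?_ <;> linarith [hC0'.1, hC0'.2, hC1'.1, hC1'.2])
  · have e1 : (B0 * (p * C0) + B1 * (q * C1)) - (B0 * (r * C1) + B1 * (t * C0)) =
      B0 * (p * C0 - r * C1) + B1 * (q * C1 - t * C0) := by ring
    rw [e1]
    rcases hp with rfl | rfl <;> rcases hq with rfl | rfl <;> rcases hr with rfl | rfl <;>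
      rcases ht with rfl | rfl <;> first | (exfalso; norm_num at h; done) |
      (refine vtx2 hB0 hB1 ?_ ?_ ?_ ?_ <;> linarith [hC0'.1, hC0'.2, hC1'.1, hC1'.2])
  · have e1 : -(B0 * (p * C0) + B1 * (q * C1)) + (B0 * (r * C1) + B1 * (t * C0)) =
      B0 * (-(p * C0) + r * C1) + B1 * (-(q * C1) + t * C0) := by ring
    rw [e1]
    rcases hp with rfl | rfl <;> rcases hq with rfl | rfl <;> rcases hr with rfl | rfl <;>
      rcases ht with rfl | rfl <;> first | (exfalso; norm_num at h; done) |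
      (refine vtx2 hB0 hB1 ?_ ?_ ?_ ?_ <;> linarith [hC0'.1, hC0'.2, hC1'.1, hC1'.2])
  · have e1 : -(B0 * (p * C0) + B1 * (q * C1)) - (B0 * (r * C1) + B1 * (t * C0)) =
      B0 * (-(p * C0) - r * C1) + B1 * (-(q * C1) - t * C0) := by ring
    rw [e1]
    rcases hp with rfl | rfl <;> rcases hq with rfl | rfl <;> rcases hr with rfl | rfl <;>
      rcases ht with rfl | rfl <;> first | (exfalso; norm_num at h; done) |
      (refine vtx2 hB0 hB1 ?_ ?_ ?_ ?_ <;> linarith [hC0'.1, hC0'.2, hC1'.1, hC1'.2])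

/-- signs -/
def sg (b : Bool) : ℝ := if b then -1 else 1

lemma sg_cases (b : Bool) : sg b = 1 ∨ sg b = -1 := by cases b <;> simp [sg]

lemma sg_xor (b b' : Bool) : sg (xor b b') = sg b * sg b' := by
  cases b <;> cases b' <;> simp [sg]

/-- the two outcomes convolved with a parity bit -/
lemma fourier (u v w : Bool → ℝ) (s : Bool) :
    ∑ k, ∑ l, u k * v l * w (xor (xor k l) s) =
      1 / 2 * ((u false + u true) * (v false + v true) * (w false + w true)) +
      1 / 2 * (sg s * (u false - u true) * (v false - v true) * (w false - w true)) := by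
  cases s <;> simp [sg] <;> ring

theorem mermin {α β γ : Bool → Bool → ℝ} (hα : ∀ i k, 0 ≤ α i k) (hβ : ∀ i k, 0 ≤ β i k)
    (hγ : ∀ i k, 0 ≤ γ i k) (hα1 : ∀ i, α i false + α i true ≤ 1)
    (hβ1 : ∀ i, β i false + β i true ≤ 1) (hγ1 : ∀ i, γ i false + γ i true ≤ 1)
    (s : Bool → Bool → Bool)
    (hs : xor (xor (s false false) (s false true)) (xor (s true false) (s true true)) = true) :
    ∑ i, ∑ j, ∑ k, ∑ l, α i k * β j l * γ (xor i j) (xor (xor k l) (s i j)) ≤ 3 := by
  simp_rw [fourier]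
  have habs : ∀ (f : Bool → Bool → ℝ), (∀ i k, 0 ≤ f i k) → (∀ i, f i false + f i true ≤ 1) →
      ∀ i, |f i false - f i true| ≤ 1 := by
    intro f h0 h1 i
    rw [abs_le]
    constructor <;> linarith [h0 i false, h0 i true, h1 i]
  have hprod : ∀ i j m, (α i false + α i true) * (β j false + β j true) *
      (γ m false + γ m true) ≤ 1 := by
    intro i j m
    have e1 := add_nonneg (hα i false) (hα i true)
    have e2 := add_nonneg (hβ j false) (hβ j true)
    have e3 := add_nonneg (hγ m false) (hγ m true)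
    exact mul_le_one₀ (mul_le_one₀ (hα1 i) e2 (hβ1 j)) e3 (hγ1 m)
  have hm := mermin_real (habs α hα hα1 false) (habs α hα hα1 true) (habs β hβ hβ1 false)
    (habs β hβ hβ1 true) (habs γ hγ hγ1 false) (habs γ hγ hγ1 true)
    (sg_cases (s false false)) (sg_cases (s false true)) (sg_cases (s true false))
    (sg_cases (s true true)) (by
      have : sg (xor (xor (s false false) (s false true)) (xor (s true false) (s true true))) =
        -1 := by rw [hs]; simp [sg]
      rw [sg_xor, sg_xor, sg_xor] at this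
      linarith)
  simp only [Fintype.sum_bool, Bool.xor_false, Bool.false_xor, Bool.xor_true, Bool.true_xor,
    Bool.not_false, Bool.not_true]
  have p1 := hprod false false false
  have p2 := hprod false true true
  have p3 := hprod true false true
  have p4 := hprod true true false
  linarith

/-- a sorted encoding: the `n`-th largest mass is at most `1 / (n + 1)` -/
lemma exists_enc {n : ℕ} (p : Fin n → ℝ) (hp : ∀ i, 0 ≤ p i) (h1 : ∑ i, p i ≤ 1) :
    ∃ σ : Fin n → ℕ, Function.Injective σ ∧ ∀ i, p i ≤ 1 / ((σ i : ℝ) + 1) := by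
  set f : Fin n → ℝ := fun i => -p i with hf
  have hmono := Tuple.monotone_sort f
  refine ⟨fun i => ((Tuple.sort f).symm i).val, ?_, ?_⟩
  · intro i j hij
    exact (Tuple.sort f).symm.injective (Fin.ext hij)
  · intro i
    set m := (Tuple.sort f).symm i with hm
    have hi : Tuple.sort f m = i := by rw [hm, Equiv.apply_symm_apply]
    rw [le_div_iff₀ (by positivity)]
    have h2 : ∑ j ∈ Iic m, p (Tuple.sort f j) ≤ 1 := by
      refine le_trans ?_ h1
      rw [← Equiv.sum_comp (Tuple.sort f) p]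
      exact sum_le_sum_of_subset_of_nonneg (subset_univ _) fun j _ _ => hp _
    have h3 : ∑ j ∈ Iic m, p i ≤ ∑ j ∈ Iic m, p (Tuple.sort f j) := by
      refine sum_le_sum fun j hj => ?_
      have h4 := hmono (mem_Iic.1 hj)
      simp only [Function.comp, hf] at h4
      rw [hi] at h4
      linarith
    rw [sum_const, Fin.card_Iic, nsmul_eq_mul] at h3
    push_cast at h3
    linarith

end Pool.Agent.Q234.CE
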