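import Pool.Agent.Q234.CE.Model
import Pool.Agent.Q234.CE.Mermin

/-!
# Classical distributions are models (helper234)
-/

set_option autoImplicit false

noncomputable section

namespace Pool.Agent.Q234.CE

open Finset
open scoped Classical

variable {k : Fin 7 → ℕ}

/-- assemble a point -/
def mk7 (x : Fin (k 0)) (y : Fin (k 1)) (z : Fin (k 2)) (a : Fin (k 3)) (b : Fin (k 4))
    (c : Fin (k 5)) (w : Fin (k 6)) : ∀ i : Fin 7, Fin (k i)
  | 0 => x
  | 1 => y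
  | 2 => z
  | 3 => a
  | 4 => b
  | 5 => c
  | 6 => w

/-- points as tuples -/
def eq7 : (∀ i : Fin 7, Fin (k i)) ≃
    (Fin (k 0) × Fin (k 1) × Fin (k 2) × Fin (k 3) × Fin (k 4) × Fin (k 5) × Fin (k 6)) where
  toFun v := (v 0, v 1, v 2, v 3, v 4, v 5, v 6)
  invFun t := mk7 t.1 t.2.1 t.2.2.1 t.2.2.2.1 t.2.2.2.2.1 t.2.2.2.2.2.1 t.2.2.2.2.2.2
  left_inv v := by
    funext i
    fin_cases i <;> rfl
  right_inv t := rfl

lemma sum7 (F : (∀ i : Fin 7, Fin (k i)) → ℝ) :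
    ∑ v, F v = ∑ x, ∑ y, ∑ z, ∑ a, ∑ b, ∑ c, ∑ w, F (mk7 x y z a b c w) := by
  rw [← Equiv.sum_comp eq7.symm F]
  simp_rw [Fintype.sum_prod_type]
  rfl

/-- the data of a classical distribution -/
structure Cl (k : Fin 7 → ℕ) where
  L : ℕ
  pL : Fin L → ℝ
  pX : Fin (k 0) → ℝ
  pY : Fin (k 1) → ℝ
  pZ : Fin (k 0) → Fin (k 1) → Fin (k 2) → ℝ
  pA : Fin (k 0) → Fin L → Fin (k 3) → ℝ
  pB : Fin (k 1) → Fin L → Fin (k 4) → ℝ
  pC : Fin (k 2) → Fin L → Fin (k 5) → ℝ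
  pW : Fin (k 3) → Fin (k 4) → Fin (k 5) → Fin (k 6) → ℝ
  nL : ∀ l, 0 ≤ pL l
  sL : ∑ l, pL l = 1
  nX : ∀ x, 0 ≤ pX x
  sX : ∑ x, pX x = 1
  nY : ∀ y, 0 ≤ pY y
  sY : ∑ y, pY y = 1
  nZ : ∀ x y z, 0 ≤ pZ x y z
  sZ : ∀ x y, ∑ z, pZ x y z = 1
  nA : ∀ x l a, 0 ≤ pA x l a
  sA : ∀ x l, ∑ a, pA x l a = 1
  nB : ∀ y l b, 0 ≤ pB y l b
  sB : ∀ y l, ∑ b, pB y l b = 1
  nC : ∀ z l c, 0 ≤ pC z l c
  sC : ∀ z l, ∑ c, pC z l c = 1
  nW : ∀ a b c w, 0 ≤ pW a b c w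
  sW : ∀ a b c, ∑ w, pW a b c w = 1

namespace Cl

variable (D : Cl k)

/-- the three-party correlations -/
def T (x : Fin (k 0)) (y : Fin (k 1)) (z : Fin (k 2)) (a : Fin (k 3)) (b : Fin (k 4))
    (c : Fin (k 5)) : ℝ := ∑ l, D.pL l * D.pA x l a * D.pB y l b * D.pC z l c

/-- the distribution -/
def P (v : ∀ i : Fin 7, Fin (k i)) : ℝ :=
  D.pX (v 0) * D.pY (v 1) * D.pZ (v 0) (v 1) (v 2) *
    D.T (v 0) (v 1) (v 2) (v 3) (v 4) (v 5) * D.pW (v 3) (v 4) (v 5) (v 6)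

lemma T_nonneg (x : Fin (k 0)) (y : Fin (k 1)) (z : Fin (k 2)) (a : Fin (k 3)) (b : Fin (k 4))
    (c : Fin (k 5)) : 0 ≤ D.T x y z a b c :=
  sum_nonneg fun l _ => mul_nonneg (mul_nonneg (mul_nonneg (D.nL l) (D.nA x l a)) (D.nB y l b))
    (D.nC z l c)

lemma P_nonneg (v : ∀ i : Fin 7, Fin (k i)) : 0 ≤ D.P v :=
  mul_nonneg (mul_nonneg (mul_nonneg (mul_nonneg (D.nX _) (D.nY _)) (D.nZ _ _ _))
    (D.T_nonneg _ _ _ _ _ _)) (D.nW _ _ _ _)

lemma sum_T (x : Fin (k 0)) (y : Fin (k 1)) (z : Fin (k 2)) :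
    ∑ a, ∑ b, ∑ c, D.T x y z a b c = 1 := by
  unfold T
  have e : ∀ a b, ∑ c, ∑ l, D.pL l * D.pA x l a * D.pB y l b * D.pC z l c =
      ∑ l, D.pL l * D.pA x l a * D.pB y l b := fun a b => by
    rw [sum_comm]
    refine sum_congr rfl fun l _ => ?_
    rw [← mul_sum, D.sC, mul_one]
  have e2 : ∀ a, ∑ b, ∑ l, D.pL l * D.pA x l a * D.pB y l b = ∑ l, D.pL l * D.pA x l a :=
    fun a => by
    rw [sum_comm]
    refine sum_congr rfl fun l _ => ?_
    rw [← mul_sum, D.sB, mul_one]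
  have e3 : ∑ a, ∑ l, D.pL l * D.pA x l a = 1 := by
    rw [sum_comm, ← D.sL]
    refine sum_congr rfl fun l _ => ?_
    rw [← mul_sum, D.sA, mul_one]
  simp_rw [e, e2]
  exact e3

lemma sum6 (ψ : Fin (k 0) → Fin (k 1) → Fin (k 2) → Fin (k 3) → Fin (k 4) → Fin (k 5) → ℝ) :
    ∑ v : ∀ i : Fin 7, Fin (k i), ψ (v 0) (v 1) (v 2) (v 3) (v 4) (v 5) * D.P v =
      ∑ x, ∑ y, ∑ z, ∑ a, ∑ b, ∑ c, ψ x y z a b c *
        (D.pX x * D.pY y * D.pZ x y z * D.T x y z a b c) := by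
  rw [sum7]
  refine sum_congr rfl fun x _ => sum_congr rfl fun y _ => sum_congr rfl fun z _ =>
    sum_congr rfl fun a _ => sum_congr rfl fun b _ => sum_congr rfl fun c _ => ?_
  have : ∀ w, ψ x y z a b c * D.P (mk7 x y z a b c w) =
      ψ x y z a b c * (D.pX x * D.pY y * D.pZ x y z * D.T x y z a b c) * D.pW a b c w := by
    intro w
    show ψ x y z a b c * (D.pX x * D.pY y * D.pZ x y z * D.T x y z a b c * D.pW a b c w) = _
    ring
  calc _ = ∑ w, ψ x y z a b c * (D.pX x * D.pY y * D.pZ x y z * D.T x y z a b c) *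
        D.pW a b c w := sum_congr rfl fun w _ => this w
    _ = _ := by rw [← mul_sum, D.sW, mul_one]

lemma sum2 (φ : Fin (k 0) → Fin (k 1) → ℝ) :
    ∑ v : ∀ i : Fin 7, Fin (k i), φ (v 0) (v 1) * D.P v =
      ∑ x, ∑ y, φ x y * (D.pX x * D.pY y) := by
  rw [D.sum6 fun x y _ _ _ _ => φ x y]
  refine sum_congr rfl fun x _ => sum_congr rfl fun y _ => ?_
  have e : ∀ z, ∑ a, ∑ b, ∑ c, φ x y * (D.pX x * D.pY y * D.pZ x y z * D.T x y z a b c) =
      φ x y * (D.pX x * D.pY y) * D.pZ x y z := by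
    intro z
    have e2 : ∀ a b c, φ x y * (D.pX x * D.pY y * D.pZ x y z * D.T x y z a b c) =
      φ x y * (D.pX x * D.pY y) * D.pZ x y z * D.T x y z a b c := fun a b c => by ring
    simp_rw [e2, ← mul_sum]
    rw [D.sum_T, mul_one]
  simp_rw [e]
  rw [← mul_sum, D.sZ, mul_one]

lemma sum_P : ∑ v, D.P v = 1 := by
  have h := D.sum2 fun _ _ => 1
  simp only [one_mul] at h
  rw [h]
  simp_rw [← mul_sum, D.sY, mul_one]
  exact D.sX

/-- indicator -/
def ind (p : Prop) : ℝ := if p then 1 else 0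

lemma ind_nonneg (p : Prop) : 0 ≤ ind p := by
  unfold ind
  split_ifs
  exacts [zero_le_one, le_rfl]

lemma ind_true {p : Prop} (h : p) : ind p = 1 := if_pos h
lemma ind_false {p : Prop} (h : ¬ p) : ind p = 0 := if_neg h

lemma law_ind {T : Type*} {Ω : Type*} [Fintype Ω] (P : Ω → ℝ) (f : Ω → T) (t : T) :
    law P f t = ∑ ω, ind (f ω = t) * P ω := by
  unfold law ind
  refine sum_congr rfl fun ω _ => ?_
  split_ifs
  · rw [one_mul]
  · rw [zero_mul]

lemma ind_and (p q : Prop) : ind (p ∧ q) = ind p * ind q := by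
  unfold ind
  by_cases hp : p <;> by_cases hq : q <;> simp [hp, hq]

lemma law_X (σ : ∀ i, Fin (k i) → ℕ) (n : ℕ) :
    law D.P (fun v => σ 0 (v 0)) n = ∑ x, ind (σ 0 x = n) * D.pX x := by
  rw [law_ind, D.sum2 fun x _ => ind (σ 0 x = n)]
  refine sum_congr rfl fun x _ => ?_
  rw [← mul_sum, ← mul_sum, D.sY, mul_one]

lemma law_Y (σ : ∀ i, Fin (k i) → ℕ) (n : ℕ) :
    law D.P (fun v => σ 1 (v 1)) n = ∑ y, ind (σ 1 y = n) * D.pY y := by
  rw [law_ind, D.sum2 fun _ y => ind (σ 1 y = n), sum_comm]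
  refine sum_congr rfl fun y _ => ?_
  rw [← mul_sum, ← sum_mul, D.sX, one_mul]

lemma law_XY (σ : ∀ i, Fin (k i) → ℕ) (n m : ℕ) :
    law D.P (fun v => (σ 0 (v 0), σ 1 (v 1))) (n, m) =
      law D.P (fun v => σ 0 (v 0)) n * law D.P (fun v => σ 1 (v 1)) m := by
  rw [law_ind, law_X, law_Y, sum_mul_sum]
  have : ∀ v : ∀ i, Fin (k i), ind ((σ 0 (v 0), σ 1 (v 1)) = (n, m)) =
      ind (σ 0 (v 0) = n) * ind (σ 1 (v 1) = m) := fun v => by
    rw [Prod.mk.injEq, ind_and]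
  simp_rw [this]
  rw [D.sum2 fun x y => ind (σ 0 x = n) * ind (σ 1 y = m)]
  refine sum_congr rfl fun x _ => sum_congr rfl fun y _ => ?_
  ring

lemma sum_ind_le {m : ℕ} {σ : Fin m → ℕ} (hσ : Function.Injective σ) (n : ℕ) :
    ∑ x, ind (σ x = n) ≤ 1 := by
  by_cases h : ∃ x, σ x = n
  · obtain ⟨x, rfl⟩ := h
    rw [sum_eq_single x (fun y _ hy => ind_false fun h => hy (hσ h)) (fun h => absurd (mem_univ x) h),
      ind_true rfl]
  · rw [sum_eq_zero fun x _ => ind_false fun h' => h ⟨x, h'⟩]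
    exact zero_le_one

lemma row_bound {m n : ℕ} {σ : Fin m → ℕ} (hσ : Function.Injective σ) (τ : Fin n → ℕ)
    {a : Bool → ℕ} (ha : Function.Injective a) (x0 : ℕ) (p : Fin m → Fin n → ℝ)
    (hp : ∀ i j, 0 ≤ p i j) (hs : ∀ i, ∑ j, p i j = 1) :
    (∑ i, ∑ j, ind (σ i = x0) * ind (τ j = a false) * p i j) +
      (∑ i, ∑ j, ind (σ i = x0) * ind (τ j = a true) * p i j) ≤ 1 := by
  rw [← sum_add_distrib]
  refine le_trans (sum_le_sum fun i _ => ?_) (sum_ind_le hσ x0)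
  rw [← sum_add_distrib]
  calc ∑ j, (ind (σ i = x0) * ind (τ j = a false) * p i j +
        ind (σ i = x0) * ind (τ j = a true) * p i j)
      ≤ ∑ j, ind (σ i = x0) * p i j := by
        refine sum_le_sum fun j _ => ?_
        have e : ind (τ j = a false) + ind (τ j = a true) ≤ 1 := by
          by_cases h1 : τ j = a false
          · have h2 : ¬ (τ j = a true) := fun h => by simpa using ha (h1.symm.trans h)
            rw [ind_true h1, ind_false h2, add_zero]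
          · rw [ind_false h1, zero_add]
            unfold ind
            split_ifs
            exacts [le_rfl, zero_le_one]
        have e2 := mul_nonneg (ind_nonneg (σ i = x0)) (hp i j)
        calc _ = (ind (τ j = a false) + ind (τ j = a true)) * (ind (σ i = x0) * p i j) := by ring
          _ ≤ 1 * (ind (σ i = x0) * p i j) := mul_le_mul_of_nonneg_right e e2
          _ = _ := one_mul _
    _ = ind (σ i = x0) := by rw [← mul_sum, hs, mul_one]

/-- the pinned hidden-variable sum -/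
lemma T_sum (e0 : Fin (k 0) → ℝ) (e1 : Fin (k 1) → ℝ) (e2 : Fin (k 2) → ℝ) (e3 : Fin (k 3) → ℝ)
    (e4 : Fin (k 4) → ℝ) (e5 : Fin (k 5) → ℝ) :
    ∑ x, ∑ y, ∑ z, ∑ a, ∑ b, ∑ c, e0 x * e1 y * e2 z * e3 a * e4 b * e5 c * D.T x y z a b c =
      ∑ l, D.pL l * (∑ x, ∑ a, e0 x * e3 a * D.pA x l a) *
        (∑ y, ∑ b, e1 y * e4 b * D.pB y l b) * (∑ z, ∑ c, e2 z * e5 c * D.pC z l c) := by
  unfold T
  have h1 : ∀ x y z a b, ∑ c, e0 x * e1 y * e2 z * e3 a * e4 b * e5 c *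
      (∑ l, D.pL l * D.pA x l a * D.pB y l b * D.pC z l c) =
      ∑ l, D.pL l * (e0 x * e3 a * D.pA x l a) * (e1 y * e4 b * D.pB y l b) *
        ∑ c, e2 z * e5 c * D.pC z l c := by
    intro x y z a b
    simp_rw [mul_sum]
    rw [sum_comm]
    refine sum_congr rfl fun l _ => sum_congr rfl fun c _ => ?_
    ring
  simp_rw [h1]
  have h2 : ∀ x y z a, ∑ b, ∑ l, D.pL l * (e0 x * e3 a * D.pA x l a) *
      (e1 y * e4 b * D.pB y l b) * ∑ c, e2 z * e5 c * D.pC z l c =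
      ∑ l, D.pL l * (e0 x * e3 a * D.pA x l a) * (∑ b, e1 y * e4 b * D.pB y l b) *
        ∑ c, e2 z * e5 c * D.pC z l c := by
    intro x y z a
    rw [sum_comm]
    refine sum_congr rfl fun l _ => ?_
    rw [← sum_mul, ← mul_sum]
  simp_rw [h2]
  have h3 : ∀ x y z, ∑ a, ∑ l, D.pL l * (e0 x * e3 a * D.pA x l a) *
      (∑ b, e1 y * e4 b * D.pB y l b) * ∑ c, e2 z * e5 c * D.pC z l c =
      ∑ l, D.pL l * (∑ a, e0 x * e3 a * D.pA x l a) * (∑ b, e1 y * e4 b * D.pB y l b) *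
        ∑ c, e2 z * e5 c * D.pC z l c := by
    intro x y z
    rw [sum_comm]
    refine sum_congr rfl fun l _ => ?_
    rw [← sum_mul, ← sum_mul, ← mul_sum]
  simp_rw [h3]
  have h4 : ∀ x y, ∑ z, ∑ l, D.pL l * (∑ a, e0 x * e3 a * D.pA x l a) *
      (∑ b, e1 y * e4 b * D.pB y l b) * ∑ c, e2 z * e5 c * D.pC z l c =
      ∑ l, D.pL l * (∑ a, e0 x * e3 a * D.pA x l a) * (∑ b, e1 y * e4 b * D.pB y l b) *
        ∑ z, ∑ c, e2 z * e5 c * D.pC z l c := by
    intro x y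
    rw [sum_comm]
    refine sum_congr rfl fun l _ => ?_
    rw [← mul_sum]
  simp_rw [h4]
  have h5 : ∀ x, ∑ y, ∑ l, D.pL l * (∑ a, e0 x * e3 a * D.pA x l a) *
      (∑ b, e1 y * e4 b * D.pB y l b) * ∑ z, ∑ c, e2 z * e5 c * D.pC z l c =
      ∑ l, D.pL l * (∑ a, e0 x * e3 a * D.pA x l a) * (∑ y, ∑ b, e1 y * e4 b * D.pB y l b) *
        ∑ z, ∑ c, e2 z * e5 c * D.pC z l c := by
    intro x
    rw [sum_comm]
    refine sum_congr rfl fun l _ => ?_
    rw [← sum_mul, ← mul_sum]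
  simp_rw [h5]
  rw [sum_comm]
  refine sum_congr rfl fun l _ => ?_
  rw [← sum_mul, ← sum_mul, ← mul_sum]

lemma le_pin {m : ℕ} (σ : Fin m → ℕ) (n : ℕ) (p : Fin m → ℝ) (hp : ∀ i, 0 ≤ p i) (i : Fin m) :
    ind (σ i = n) * p i ≤ ind (σ i = n) * ∑ j, ind (σ j = n) * p j := by
  by_cases h : σ i = n
  · rw [ind_true h, one_mul, one_mul]
    have := single_le_sum (f := fun j => ind (σ j = n) * p j)
      (fun j _ => mul_nonneg (ind_nonneg _) (hp j)) (mem_univ i)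
    rw [ind_true h, one_mul] at this
    exact this
  · rw [ind_false h, zero_mul, zero_mul]

lemma swap5 {L : ℕ} (f : Fin L → Bool → Bool → Bool → Bool → ℝ) :
    ∑ i, ∑ j, ∑ r, ∑ t, ∑ l, f l i j r t = ∑ l, ∑ i, ∑ j, ∑ r, ∑ t, f l i j r t := by
  simp only [Fintype.sum_bool, sum_add_distrib]

theorem bellBound (σ : ∀ i, Fin (k i) → ℕ) (hσ : ∀ i, Function.Injective (σ i)) :
    BellBound (Mm D.P fun v i => σ i (v i)) := by
  intro x y z a b c ha hb hc s hs K hK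
  -- one-variable masses
  have hX : ∀ n : ℕ, Mm D.P (fun v i => σ i (v i)) {0} (fun _ => n) =
      ∑ x, ind (σ 0 x = n) * D.pX x := fun n => by
    rw [← D.law_X]
    exact Mm_law _ _ _ _ fun ω => by simp
  have hY : ∀ n : ℕ, Mm D.P (fun v i => σ i (v i)) {1} (fun _ => n) =
      ∑ x, ind (σ 1 x = n) * D.pY x := fun n => by
    rw [← D.law_Y]
    exact Mm_law _ _ _ _ fun ω => by simp
  -- the response functions
  let α : Fin D.L → Bool → Bool → ℝ := fun l i r =>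
    ∑ x', ∑ a', ind (σ 0 x' = x i) * ind (σ 3 a' = a r) * D.pA x' l a'
  let β : Fin D.L → Bool → Bool → ℝ := fun l i r =>
    ∑ x', ∑ a', ind (σ 1 x' = y i) * ind (σ 4 a' = b r) * D.pB x' l a'
  let γ : Fin D.L → Bool → Bool → ℝ := fun l i r =>
    ∑ x', ∑ a', ind (σ 2 x' = z i) * ind (σ 5 a' = c r) * D.pC x' l a'
  have hα : ∀ l i r, 0 ≤ α l i r := fun l i r => sum_nonneg fun _ _ => sum_nonneg fun _ _ =>
    mul_nonneg (mul_nonneg (ind_nonneg _) (ind_nonneg _)) (D.nA _ _ _)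
  have hβ : ∀ l i r, 0 ≤ β l i r := fun l i r => sum_nonneg fun _ _ => sum_nonneg fun _ _ =>
    mul_nonneg (mul_nonneg (ind_nonneg _) (ind_nonneg _)) (D.nB _ _ _)
  have hγ : ∀ l i r, 0 ≤ γ l i r := fun l i r => sum_nonneg fun _ _ => sum_nonneg fun _ _ =>
    mul_nonneg (mul_nonneg (ind_nonneg _) (ind_nonneg _)) (D.nC _ _ _)
  have hα1 : ∀ l i, α l i false + α l i true ≤ 1 := fun l i =>
    row_bound (hσ 0) (σ 3) ha (x i) (fun x' a' => D.pA x' l a') (fun _ _ => D.nA _ _ _)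
      (fun _ => D.sA _ _)
  have hβ1 : ∀ l i, β l i false + β l i true ≤ 1 := fun l i =>
    row_bound (hσ 1) (σ 4) hb (y i) (fun x' a' => D.pB x' l a') (fun _ _ => D.nB _ _ _)
      (fun _ => D.sB _ _)
  have hγ1 : ∀ l i, γ l i false + γ l i true ≤ 1 := fun l i =>
    row_bound (hσ 2) (σ 5) hc (z i) (fun x' a' => D.pC x' l a') (fun _ _ => D.nC _ _ _)
      (fun _ => D.sC _ _)
  -- the joint mass
  have hM : ∀ i j m r t q, Mm D.P (fun v i => σ i (v i)) {0, 1, 2, 3, 4, 5}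
      ![x i, y j, z m, a r, b t, c q, 0] ≤ K * ∑ l, D.pL l * α l i r * β l j t * γ l m q := by
    intro i j m r t q
    have e1 : Mm D.P (fun v i => σ i (v i)) {0, 1, 2, 3, 4, 5} ![x i, y j, z m, a r, b t, c q, 0] =
        ∑ v : ∀ i, Fin (k i), (ind (σ 0 (v 0) = x i) * ind (σ 1 (v 1) = y j) *
          ind (σ 2 (v 2) = z m) * ind (σ 3 (v 3) = a r) * ind (σ 4 (v 4) = b t) *
          ind (σ 5 (v 5) = c q)) * D.P v := by
      rw [Mm_law {0, 1, 2, 3, 4, 5} _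
        (fun v => (((((σ 0 (v 0), σ 1 (v 1)), σ 2 (v 2)), σ 3 (v 3)), σ 4 (v 4)), σ 5 (v 5)))
        (((((x i, y j), z m), a r), b t), c q) (fun v => by simp [and_assoc]), law_ind]
      refine sum_congr rfl fun v _ => ?_
      rw [Prod.mk.injEq, Prod.mk.injEq, Prod.mk.injEq, Prod.mk.injEq, Prod.mk.injEq,
        ind_and, ind_and, ind_and, ind_and, ind_and]
    rw [e1, D.sum6 fun x' y' z' a' b' c' => ind (σ 0 x' = x i) * ind (σ 1 y' = y j) *
          ind (σ 2 z' = z m) * ind (σ 3 a' = a r) * ind (σ 4 b' = b t) * ind (σ 5 c' = c q)]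
    have e2 := D.T_sum (fun x' => ind (σ 0 x' = x i)) (fun y' => ind (σ 1 y' = y j))
      (fun z' => ind (σ 2 z' = z m)) (fun a' => ind (σ 3 a' = a r))
      (fun b' => ind (σ 4 b' = b t)) (fun c' => ind (σ 5 c' = c q))
    have e3 : ∑ l, D.pL l * α l i r * β l j t * γ l m q =
        ∑ x', ∑ y', ∑ z', ∑ a', ∑ b', ∑ c', ind (σ 0 x' = x i) * ind (σ 1 y' = y j) *
          ind (σ 2 z' = z m) * ind (σ 3 a' = a r) * ind (σ 4 b' = b t) * ind (σ 5 c' = c q) *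
          D.T x' y' z' a' b' c' := e2.symm
    rw [e3, mul_sum]
    refine sum_le_sum fun x' _ => ?_
    rw [mul_sum]
    refine sum_le_sum fun y' _ => ?_
    rw [mul_sum]
    refine sum_le_sum fun z' _ => ?_
    rw [mul_sum]
    refine sum_le_sum fun a' _ => ?_
    rw [mul_sum]
    refine sum_le_sum fun b' _ => ?_
    rw [mul_sum]
    refine sum_le_sum fun c' _ => ?_
    have f1 : ind (σ 0 x' = x i) * D.pX x' * (ind (σ 1 y' = y j) * D.pY y') ≤
        ind (σ 0 x' = x i) * ind (σ 1 y' = y j) * K := by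
      have g1 := le_pin (σ 0) (x i) D.pX D.nX x'
      have g2 := le_pin (σ 1) (y j) D.pY D.nY y'
      have g3 := hK i j
      rw [hX, hY] at g3
      calc ind (σ 0 x' = x i) * D.pX x' * (ind (σ 1 y' = y j) * D.pY y')
          ≤ (ind (σ 0 x' = x i) * ∑ j, ind (σ 0 j = x i) * D.pX j) *
            (ind (σ 1 y' = y j) * ∑ j', ind (σ 1 j' = y j) * D.pY j') :=
            mul_le_mul g1 g2 (mul_nonneg (ind_nonneg _) (D.nY _))
              (mul_nonneg (ind_nonneg _) (sum_nonneg fun _ _ => mul_nonneg (ind_nonneg _)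
                (D.nX _)))
        _ = ind (σ 0 x' = x i) * ind (σ 1 y' = y j) * ((∑ j, ind (σ 0 j = x i) * D.pX j) *
            ∑ j', ind (σ 1 j' = y j) * D.pY j') := by ring
        _ ≤ _ := mul_le_mul_of_nonneg_left g3 (mul_nonneg (ind_nonneg _) (ind_nonneg _))
    have f2 : D.pZ x' y' z' ≤ 1 := by
      rw [← D.sZ x' y']
      exact single_le_sum (f := fun z' => D.pZ x' y' z') (fun _ _ => D.nZ _ _ _) (mem_univ z')
    have f3 : 0 ≤ ind (σ 2 z' = z m) * ind (σ 3 a' = a r) * ind (σ 4 b' = b t) *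
        ind (σ 5 c' = c q) * D.T x' y' z' a' b' c' :=
      mul_nonneg (mul_nonneg (mul_nonneg (mul_nonneg (ind_nonneg _) (ind_nonneg _))
        (ind_nonneg _)) (ind_nonneg _)) (D.T_nonneg _ _ _ _ _ _)
    have f4 : 0 ≤ ind (σ 0 x' = x i) * D.pX x' * (ind (σ 1 y' = y j) * D.pY y') :=
      mul_nonneg (mul_nonneg (ind_nonneg _) (D.nX _)) (mul_nonneg (ind_nonneg _) (D.nY _))
    calc ind (σ 0 x' = x i) * ind (σ 1 y' = y j) * ind (σ 2 z' = z m) * ind (σ 3 a' = a r) *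
          ind (σ 4 b' = b t) * ind (σ 5 c' = c q) *
          (D.pX x' * D.pY y' * D.pZ x' y' z' * D.T x' y' z' a' b' c')
        = (ind (σ 0 x' = x i) * D.pX x' * (ind (σ 1 y' = y j) * D.pY y')) *
          (D.pZ x' y' z' * (ind (σ 2 z' = z m) * ind (σ 3 a' = a r) * ind (σ 4 b' = b t) *
          ind (σ 5 c' = c q) * D.T x' y' z' a' b' c')) := by ring
      _ ≤ (ind (σ 0 x' = x i) * D.pX x' * (ind (σ 1 y' = y j) * D.pY y')) *
          (1 * (ind (σ 2 z' = z m) * ind (σ 3 a' = a r) * ind (σ 4 b' = b t) *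
          ind (σ 5 c' = c q) * D.T x' y' z' a' b' c')) :=
          mul_le_mul_of_nonneg_left (mul_le_mul_of_nonneg_right f2 f3) f4
      _ ≤ (ind (σ 0 x' = x i) * ind (σ 1 y' = y j) * K) *
          (1 * (ind (σ 2 z' = z m) * ind (σ 3 a' = a r) * ind (σ 4 b' = b t) *
          ind (σ 5 c' = c q) * D.T x' y' z' a' b' c')) :=
          mul_le_mul_of_nonneg_right f1 (by rw [one_mul]; exact f3)
      _ = _ := by ring
  have hK0 : 0 ≤ K := by
    refine le_trans ?_ (hK true true)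
    exact mul_nonneg (law_nonneg D.P_nonneg _ _) (law_nonneg D.P_nonneg _ _)
  calc _ ≤ ∑ i, ∑ j, ∑ r, ∑ t, K * ∑ l, D.pL l * α l i r * β l j t *
        γ l (xor i j) (xor (xor r t) (s i j)) :=
        sum_le_sum fun i _ => sum_le_sum fun j _ => sum_le_sum fun r _ => sum_le_sum fun t _ =>
          hM i j (xor i j) r t (xor (xor r t) (s i j))
    _ = K * ∑ l, D.pL l * ∑ i, ∑ j, ∑ r, ∑ t, α l i r * β l j t *
        γ l (xor i j) (xor (xor r t) (s i j)) := by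
        have e : ∀ l, D.pL l * ∑ i, ∑ j, ∑ r, ∑ t, α l i r * β l j t *
            γ l (xor i j) (xor (xor r t) (s i j)) = ∑ i, ∑ j, ∑ r, ∑ t, D.pL l * α l i r *
            β l j t * γ l (xor i j) (xor (xor r t) (s i j)) := by
          intro l
          simp_rw [mul_sum, mul_assoc]
        simp_rw [e]
        rw [← swap5]
        simp_rw [mul_sum]
    _ ≤ K * ∑ l, D.pL l * 3 := by
        refine mul_le_mul_of_nonneg_left (sum_le_sum fun l _ => ?_) hK0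
        exact mul_le_mul_of_nonneg_left (mermin (hα l) (hβ l) (hγ l) (hα1 l) (hβ1 l) (hγ1 l) s hs)
          (D.nL l)
    _ = 3 * K := by rw [← sum_mul, D.sL]; ring

/-- every classical distribution is a model -/
theorem exists_model (D : Cl k) : ∃ σ : ∀ i, Fin (k i) → ℕ, (∀ i, Function.Injective (σ i)) ∧
    IsModel (Mm D.P fun v i => σ i (v i)) (Hm D.P fun v i => σ i (v i)) := by
  have h := fun i => exists_enc (fun j => law D.P (fun v => v i) j)
    (fun j => law_nonneg D.P_nonneg _ _) (by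
      rw [← D.sum_P, ← sum_law (P := D.P) (fun v => v i)]
      refine le_of_eq (sum_subset (subset_univ _) fun j _ hj => ?_).symm
      exact law_eq_zero_of_notMem _ hj)
  choose σ hσ hσ2 using h
  refine ⟨σ, hσ, isModel D.P_nonneg D.sum_P ?_ (fun n m => D.law_XY σ n m) (D.bellBound σ hσ)⟩
  intro i n
  by_cases hn : ∃ j, σ i j = n
  · obtain ⟨j, rfl⟩ := hn
    refine le_trans (le_of_eq ?_) (hσ2 i j)
    exact law_congr fun v => (hσ i).eq_iff
  · have : law D.P (fun v => σ i (v i)) n = 0 :=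
      law_eq_zero_of_notMem _ fun h => by
        obtain ⟨v, hv⟩ := mem_img.1 h
        exact hn ⟨v i, hv⟩
    rw [this]
    positivity

end Cl

end Pool.Agent.Q234.CE
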