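import Mathlib

/-!
# Entropy of random variables on a finite weighted space (helper234)
-/

set_option autoImplicit false

noncomputable section

namespace Pool.Agent.Q234.CE

open Finset
open scoped Classical

variable {Ω T U : Type*} [Fintype Ω]

/-- mass of the event `f = t` -/
def law (P : Ω → ℝ) (f : Ω → T) (t : T) : ℝ := ∑ ω, if f ω = t then P ω else 0

/-- entropy (natural logarithm) of `f` -/
def ent (P : Ω → ℝ) (f : Ω → T) : ℝ := ∑ ω, P ω * (-Real.log (law P f (f ω)))

/-- range as a finset -/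
def img (f : Ω → T) : Finset T := univ.image f

lemma mem_img {f : Ω → T} {t : T} : t ∈ img f ↔ ∃ ω, f ω = t := by simp [img]

lemma mem_img_self (f : Ω → T) (ω : Ω) : f ω ∈ img f := mem_img.2 ⟨ω, rfl⟩

variable {P : Ω → ℝ}

lemma law_nonneg (hP : ∀ ω, 0 ≤ P ω) (f : Ω → T) (t : T) : 0 ≤ law P f t :=
  sum_nonneg fun ω _ => by split_ifs; exacts [hP ω, le_rfl]

lemma law_le_total (hP : ∀ ω, 0 ≤ P ω) (f : Ω → T) (t : T) : law P f t ≤ ∑ ω, P ω :=
  sum_le_sum fun ω _ => by split_ifs; exacts [le_rfl, hP ω]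

lemma le_law_self (hP : ∀ ω, 0 ≤ P ω) (f : Ω → T) (ω : Ω) : P ω ≤ law P f (f ω) := by
  have h := single_le_sum (f := fun ω' => if f ω' = f ω then P ω' else 0)
    (fun ω' _ => by
      show 0 ≤ if f ω' = f ω then P ω' else 0
      split_ifs
      exacts [hP ω', le_rfl]) (mem_univ ω)
  have h2 : (if f ω = f ω then P ω else 0) = P ω := if_pos rfl
  rw [← h2]
  exact h

lemma law_pos (hP : ∀ ω, 0 ≤ P ω) (f : Ω → T) {ω : Ω} (h : 0 < P ω) : 0 < law P f (f ω) :=
  h.trans_le (le_law_self hP f ω)

lemma law_eq_zero_of_notMem (f : Ω → T) {t : T} (h : t ∉ img f) : law P f t = 0 := by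
  refine sum_eq_zero fun ω _ => ?_
  rw [if_neg]
  intro h1
  exact h (mem_img.2 ⟨ω, h1⟩)

/-- coarser variables have larger laws -/
lemma law_mono (hP : ∀ ω, 0 ≤ P ω) {f : Ω → T} {g : Ω → U} {t : T} {u : U}
    (h : ∀ ω, f ω = t → g ω = u) : law P f t ≤ law P g u :=
  sum_le_sum fun ω _ => by
    by_cases h1 : f ω = t
    · rw [if_pos h1, if_pos (h ω h1)]
    · rw [if_neg h1]
      split_ifs
      exacts [hP ω, le_rfl]

lemma law_congr {f : Ω → T} {g : Ω → U} {t : T} {u : U}
    (h : ∀ ω, f ω = t ↔ g ω = u) : law P f t = law P g u :=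
  sum_congr rfl fun ω _ => by
    by_cases h1 : f ω = t
    · rw [if_pos h1, if_pos ((h ω).1 h1)]
    · rw [if_neg h1, if_neg fun h2 => h1 ((h ω).2 h2)]

lemma ent_congr {f : Ω → T} {g : Ω → U} (h : ∀ ω ω', f ω = f ω' ↔ g ω = g ω') :
    ent P f = ent P g :=
  sum_congr rfl fun ω _ => by rw [law_congr (g := g) (u := g ω) fun ω' => h ω' ω]

/-- grouping by values -/
lemma sum_group (f : Ω → T) (F : T → ℝ) :
    ∑ ω, P ω * F (f ω) = ∑ t ∈ img f, law P f t * F t := by
  unfold law
  simp_rw [Finset.sum_mul]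
  rw [Finset.sum_comm]
  refine sum_congr rfl fun ω _ => ?_
  rw [sum_eq_single (f ω)]
  · simp
  · intro t _ ht
    rw [if_neg (Ne.symm ht), zero_mul]
  · intro h
    exact absurd (mem_img_self f ω) h

lemma sum_law (f : Ω → T) : ∑ t ∈ img f, law P f t = ∑ ω, P ω := by
  have := sum_group (P := P) f (fun _ => 1)
  simpa using this.symm

lemma ent_eq_sum (f : Ω → T) : ent P f = ∑ t ∈ img f, Real.negMulLog (law P f t) := by
  unfold ent
  rw [sum_group (P := P) f (fun t => -Real.log (law P f t))]
  refine sum_congr rfl fun t _ => ?_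
  rw [Real.negMulLog]
  ring

/-- partial sums of the entropy -/
lemma sum_negMulLog_le (hP : ∀ ω, 0 ≤ P ω) (h1 : ∑ ω, P ω = 1) (f : Ω → T) (F : Finset T) :
    ∑ t ∈ F, Real.negMulLog (law P f t) ≤ ent P f := by
  rw [ent_eq_sum]
  have hnn : ∀ t, 0 ≤ Real.negMulLog (law P f t) := fun t =>
    Real.negMulLog_nonneg (law_nonneg hP f t) (h1 ▸ law_le_total hP f t)
  calc ∑ t ∈ F, Real.negMulLog (law P f t)
      = ∑ t ∈ F ∩ img f, Real.negMulLog (law P f t) := by
        refine (sum_subset inter_subset_left fun t ht1 ht => ?_).symm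
        by_cases h : t ∈ img f
        · exact absurd (mem_inter.2 ⟨ht1, h⟩) ht
        · rw [law_eq_zero_of_notMem f h, Real.negMulLog_zero]
    _ ≤ _ := sum_le_sum_of_subset_of_nonneg inter_subset_right fun t _ _ => hnn t

/-- the difference `ent (f,g) - ent g` -/
lemma ent_diff (f : Ω → T) (g : Ω → U) :
    ent P (fun ω => (f ω, g ω)) - ent P g =
      ∑ ω, P ω * (Real.log (law P g (g ω)) - Real.log (law P (fun ω => (f ω, g ω)) (f ω, g ω))) := by
  unfold ent
  rw [← sum_sub_distrib]
  refine sum_congr rfl fun ω _ => ?_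
  ring

lemma law_pair_le (hP : ∀ ω, 0 ≤ P ω) (f : Ω → T) (g : Ω → U) (t : T) (u : U) :
    law P (fun ω => (f ω, g ω)) (t, u) ≤ law P g u :=
  law_mono hP fun _ h => (Prod.mk.inj h).2

lemma log_diff_nonneg (hP : ∀ ω, 0 ≤ P ω) (f : Ω → T) (g : Ω → U) (t : T) (u : U) :
    0 ≤ law P (fun ω => (f ω, g ω)) (t, u) *
      (Real.log (law P g u) - Real.log (law P (fun ω => (f ω, g ω)) (t, u))) := by
  have h0 := law_nonneg hP (fun ω => (f ω, g ω)) (t, u)
  rcases h0.eq_or_lt with h | h
  · rw [← h, zero_mul]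
  · refine mul_nonneg h0 (sub_nonneg.2 (Real.log_le_log h (law_pair_le hP f g t u)))

/-- partial sums of the conditional entropy -/
lemma sum_cond_le (hP : ∀ ω, 0 ≤ P ω) (f : Ω → T) (g : Ω → U) (F : Finset (T × U)) :
    ∑ q ∈ F, law P (fun ω => (f ω, g ω)) q *
      (Real.log (law P g q.2) - Real.log (law P (fun ω => (f ω, g ω)) q)) ≤
      ent P (fun ω => (f ω, g ω)) - ent P g := by
  rw [ent_diff, sum_group (P := P) (fun ω => (f ω, g ω))
    (fun q => Real.log (law P g q.2) - Real.log (law P (fun ω => (f ω, g ω)) q))]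
  calc _ = ∑ q ∈ F ∩ img (fun ω => (f ω, g ω)), law P (fun ω => (f ω, g ω)) q *
      (Real.log (law P g q.2) - Real.log (law P (fun ω => (f ω, g ω)) q)) := by
        refine (sum_subset inter_subset_left fun t ht1 ht => ?_).symm
        by_cases h : t ∈ img (fun ω => (f ω, g ω))
        · exact absurd (mem_inter.2 ⟨ht1, h⟩) ht
        · rw [law_eq_zero_of_notMem _ h, zero_mul]
    _ ≤ _ := sum_le_sum_of_subset_of_nonneg inter_subset_right fun q _ _ =>
        log_diff_nonneg hP f g q.1 q.2

/-- functional dependence, quantitatively -/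
lemma law_mul_le (hP : ∀ ω, 0 ≤ P ω) (h1 : ∑ ω, P ω = 1) (f : Ω → T) (g : Ω → U)
    {t t' : T} (htt : t ≠ t') (u : U) :
    law P (fun ω => (f ω, g ω)) (t, u) * law P (fun ω => (f ω, g ω)) (t', u) ≤
      ent P (fun ω => (f ω, g ω)) - ent P g := by
  set a := law P (fun ω => (f ω, g ω)) (t, u) with ha
  set b := law P (fun ω => (f ω, g ω)) (t', u) with hb
  have ha0 : 0 ≤ a := law_nonneg hP _ _
  have hb0 : 0 ≤ b := law_nonneg hP _ _
  have hs := sum_cond_le hP f g {(t, u)}
  rw [sum_singleton] at hs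
  have hs' : a * (Real.log (law P g u) - Real.log a) ≤ ent P (fun ω => (f ω, g ω)) - ent P g := hs
  refine le_trans ?_ hs'
  have hab : a + b ≤ law P g u := by
    rw [ha, hb]
    unfold law
    rw [← sum_add_distrib]
    refine sum_le_sum fun ω _ => ?_
    by_cases h2 : g ω = u
    · rw [if_pos h2]
      by_cases h3 : f ω = t
      · have h4 : ¬ (f ω = t') := fun h => htt (h3.symm.trans h)
        rw [if_pos (show (f ω, g ω) = (t, u) by rw [h3, h2]), if_neg (by simp [h4])]
        simp
      · rw [if_neg (by simp [h3])]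
        split_ifs
        · simp
        · simpa using hP ω
    · rw [if_neg (by simp [h2]), if_neg (by simp [h2]), if_neg h2]
      simp
  have hg1 : law P g u ≤ 1 := h1 ▸ law_le_total hP g u
  rcases ha0.eq_or_lt with h0 | h0
  · rw [← h0, zero_mul, zero_mul]
  · refine mul_le_mul_of_nonneg_left ?_ ha0
    have hc : 0 < a + b := by linarith
    have h2 : Real.log (a + b) ≤ Real.log (law P g u) := Real.log_le_log hc hab
    have h3 : 1 - (a / (a + b)) ≤ Real.log (a + b) - Real.log a := by
      have h4 := Real.add_one_le_exp (Real.log (a / (a + b)))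
      rw [Real.exp_log (by positivity), Real.log_div h0.ne' hc.ne'] at h4
      linarith
    have h5 : b ≤ 1 - a / (a + b) := by
      have : 1 - a / (a + b) = b / (a + b) := by field_simp; ring
      rw [this, le_div_iff₀ hc]
      nlinarith
    linarith

/-- unnormalised Gibbs inequality -/
lemma gibbs (hP : ∀ ω, 0 ≤ P ω) {τ : ℝ} (hτ : ∑ ω, P ω = τ) (hτ0 : 0 < τ) (f : Ω → T)
    (g : Ω → U) :
    ent P (fun ω => (f ω, g ω)) ≤ ent P f + ent P g + τ * Real.log τ := by
  set h : Ω → T × U := fun ω => (f ω, g ω) with hh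
  have key : ∑ ω, P ω * (Real.log (law P f (f ω)) + Real.log (law P g (g ω)) -
      Real.log (law P h (h ω)) - Real.log τ) ≤
      ∑ ω, P ω * (law P f (f ω) * law P g (g ω) / (law P h (h ω) * τ) - 1) := by
    refine sum_le_sum fun ω _ => ?_
    rcases (hP ω).eq_or_lt with h0 | h0
    · rw [← h0, zero_mul, zero_mul]
    · refine mul_le_mul_of_nonneg_left ?_ (hP ω)
      have e1 := law_pos hP f h0
      have e2 := law_pos hP g h0
      have e3 := law_pos hP h h0
      have e4 := Real.log_le_sub_one_of_pos (x := law P f (f ω) * law P g (g ω) / (law P h (h ω) * τ))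
        (by positivity)
      rw [Real.log_div (by positivity) (by positivity), Real.log_mul e1.ne' e2.ne',
        Real.log_mul e3.ne' hτ0.ne'] at e4
      linarith
  have hR : ∑ ω, P ω * (law P f (f ω) * law P g (g ω) / (law P h (h ω) * τ) - 1) ≤ 0 := by
    simp_rw [mul_sub, mul_one]
    rw [sum_sub_distrib, hτ]
    have e1 := sum_group (P := P) h (fun q => law P f q.1 * law P g q.2 / (law P h q * τ))
    rw [e1]
    have e2 : ∑ q ∈ img h, law P h q * (law P f q.1 * law P g q.2 / (law P h q * τ)) ≤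
        ∑ q ∈ (img f) ×ˢ (img g), law P f q.1 * law P g q.2 / τ := by
      refine (sum_le_sum fun q _ => ?_).trans (sum_le_sum_of_subset_of_nonneg ?_ fun q _ _ => ?_)
      · rcases (law_nonneg hP h q).eq_or_lt with h0 | h0
        · rw [← h0]
          have := mul_nonneg (law_nonneg hP f q.1) (law_nonneg hP g q.2)
          simpa using div_nonneg this hτ0.le
        · refine le_of_eq ?_
          field_simp
      · intro q hq
        obtain ⟨ω, rfl⟩ := mem_img.1 hq
        exact mem_product.2 ⟨mem_img_self _ _, mem_img_self _ _⟩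
      · exact div_nonneg (mul_nonneg (law_nonneg hP f q.1) (law_nonneg hP g q.2)) hτ0.le
    have e3 : ∑ q ∈ (img f) ×ˢ (img g), law P f q.1 * law P g q.2 / τ = τ := by
      rw [sum_product]
      simp_rw [← sum_div, ← mul_sum, sum_law, ← sum_mul, sum_law, hτ]
      field_simp
    have e4 := e2.trans e3.le
    linarith
  have hL : ∑ ω, P ω * (Real.log (law P f (f ω)) + Real.log (law P g (g ω)) -
      Real.log (law P h (h ω)) - Real.log τ) =
      ent P h - ent P f - ent P g - τ * Real.log τ := by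
    unfold ent
    rw [← hτ, sum_mul, ← sum_sub_distrib, ← sum_sub_distrib, ← sum_sub_distrib]
    refine sum_congr rfl fun ω _ => ?_
    ring
  linarith

/-- subadditivity -/
lemma ent_pair_le (hP : ∀ ω, 0 ≤ P ω) (h1 : ∑ ω, P ω = 1) (f : Ω → T) (g : Ω → U) :
    ent P (fun ω => (f ω, g ω)) ≤ ent P f + ent P g := by
  have := gibbs hP h1 one_pos f g
  simpa using this

/-- monotonicity -/
lemma ent_le_pair (hP : ∀ ω, 0 ≤ P ω) (f : Ω → T) (g : Ω → U) :
    ent P g ≤ ent P (fun ω => (f ω, g ω)) := by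
  have := sum_cond_le hP f g ∅
  rw [sum_empty] at this
  linarith

/-- independence, quantitatively -/
lemma law_indep (hP : ∀ ω, 0 ≤ P ω) (h1 : ∑ ω, P ω = 1) (f : Ω → T) (g : Ω → U) (t : T) (u : U) :
    (law P (fun ω => (f ω, g ω)) (t, u) - law P f t * law P g u) ^ 2 ≤
      4 * (ent P f + ent P g - ent P (fun ω => (f ω, g ω))) := by
  set h : Ω → T × U := fun ω => (f ω, g ω) with hh
  have hsub := ent_pair_le hP h1 f g
  by_cases hmem : (t, u) ∈ (img f) ×ˢ (img g)
  swap
  · have hz : law P h (t, u) = 0 := by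
      refine law_eq_zero_of_notMem h fun hq => hmem ?_
      obtain ⟨ω, hω⟩ := mem_img.1 hq
      rw [← hω]
      exact mem_product.2 ⟨mem_img_self _ _, mem_img_self _ _⟩
    have hz2 : law P f t * law P g u = 0 := by
      rw [mem_product, not_and_or] at hmem
      rcases hmem with hm | hm
      · rw [law_eq_zero_of_notMem f hm, zero_mul]
      · rw [law_eq_zero_of_notMem g hm, mul_zero]
    rw [hz, hz2]
    have : 0 ≤ ent P f + ent P g - ent P h := by linarith
    nlinarith
  -- lower bound for the mutual information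
  have key : ∑ ω, P ω * (2 - 2 * Real.sqrt (law P f (f ω) * law P g (g ω) / law P h (h ω))) ≤
      ∑ ω, P ω * (Real.log (law P h (h ω)) - Real.log (law P f (f ω)) -
        Real.log (law P g (g ω))) := by
    refine sum_le_sum fun ω _ => ?_
    rcases (hP ω).eq_or_lt with h0 | h0
    · rw [← h0, zero_mul, zero_mul]
    · refine mul_le_mul_of_nonneg_left ?_ (hP ω)
      have e1 := law_pos hP f h0
      have e2 := law_pos hP g h0
      have e3 := law_pos hP h h0
      have e0 : 0 < law P f (f ω) * law P g (g ω) / law P h (h ω) := by positivity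
      have e4 := Real.log_le_sub_one_of_pos (x := Real.sqrt (law P f (f ω) * law P g (g ω) /
        law P h (h ω))) (Real.sqrt_pos.2 e0)
      rw [Real.log_sqrt e0.le, Real.log_div (by positivity) (by positivity),
        Real.log_mul e1.ne' e2.ne'] at e4
      linarith
  have hR : ∑ ω, P ω * (Real.log (law P h (h ω)) - Real.log (law P f (f ω)) -
        Real.log (law P g (g ω))) = ent P f + ent P g - ent P h := by
    unfold ent
    rw [← sum_add_distrib, ← sum_sub_distrib]
    refine sum_congr rfl fun ω _ => ?_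
    ring
  have hL : ∑ ω, P ω * (2 - 2 * Real.sqrt (law P f (f ω) * law P g (g ω) / law P h (h ω))) =
      ∑ q ∈ (img f) ×ˢ (img g),
        (Real.sqrt (law P h q) - Real.sqrt (law P f q.1 * law P g q.2)) ^ 2 := by
    have e1 := sum_group (P := P) h (fun q => 2 - 2 * Real.sqrt (law P f q.1 * law P g q.2 /
      law P h q))
    rw [e1]
    have e2 : ∑ q ∈ img h, law P h q * (2 - 2 * Real.sqrt (law P f q.1 * law P g q.2 /
        law P h q)) = ∑ q ∈ (img f) ×ˢ (img g), (2 * law P h q -
        2 * (Real.sqrt (law P h q) * Real.sqrt (law P f q.1 * law P g q.2))) := by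
      have e3 : ∀ q, law P h q * (2 - 2 * Real.sqrt (law P f q.1 * law P g q.2 / law P h q)) =
          2 * law P h q - 2 * (Real.sqrt (law P h q) * Real.sqrt (law P f q.1 * law P g q.2)) := by
        intro q
        have hq := law_nonneg hP h q
        rcases hq.eq_or_lt with h0 | h0
        · rw [← h0]; simp
        · rw [Real.sqrt_div' _ hq]
          have hs : 0 < Real.sqrt (law P h q) := Real.sqrt_pos.2 h0
          have hs2 : Real.sqrt (law P h q) * Real.sqrt (law P h q) = law P h q :=
            Real.mul_self_sqrt hq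
          have hs3 : law P h q / Real.sqrt (law P h q) = Real.sqrt (law P h q) := by
            rw [div_eq_iff hs.ne', hs2]
          calc law P h q * (2 - 2 * (Real.sqrt (law P f q.1 * law P g q.2) /
                Real.sqrt (law P h q))) = 2 * law P h q - 2 * (law P h q / Real.sqrt (law P h q) *
                Real.sqrt (law P f q.1 * law P g q.2)) := by ring
            _ = _ := by rw [hs3]
      simp_rw [e3]
      refine sum_subset ?_ fun q _ hq => ?_
      · intro q hq
        obtain ⟨ω, rfl⟩ := mem_img.1 hq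
        exact mem_product.2 ⟨mem_img_self _ _, mem_img_self _ _⟩
      · rw [law_eq_zero_of_notMem h hq]; simp
    rw [e2]
    have e4 : ∑ q ∈ (img f) ×ˢ (img g), law P h q = 1 := by
      rw [← h1, ← sum_law (P := P) h]
      refine (sum_subset ?_ fun q _ hq => law_eq_zero_of_notMem h hq).symm
      intro q hq
      obtain ⟨ω, rfl⟩ := mem_img.1 hq
      exact mem_product.2 ⟨mem_img_self _ _, mem_img_self _ _⟩
    have e5 : ∑ q ∈ (img f) ×ˢ (img g), law P f q.1 * law P g q.2 = 1 := by
      rw [sum_product]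
      simp_rw [← mul_sum, sum_law, ← sum_mul, sum_law, h1]
      norm_num
    have e6 : ∀ q : T × U, (Real.sqrt (law P h q) - Real.sqrt (law P f q.1 * law P g q.2)) ^ 2 =
        law P h q + law P f q.1 * law P g q.2 -
          2 * (Real.sqrt (law P h q) * Real.sqrt (law P f q.1 * law P g q.2)) := by
      intro q
      have a1 := Real.sq_sqrt (law_nonneg hP h q)
      have a2 := Real.sq_sqrt (mul_nonneg (law_nonneg hP f q.1) (law_nonneg hP g q.2))
      rw [sub_sq, a1, a2]
      ring
    simp_rw [e6]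
    rw [sum_sub_distrib, sum_sub_distrib, sum_add_distrib, e4, e5, ← mul_sum, e4]
    ring
  have hsingle : (Real.sqrt (law P h (t, u)) - Real.sqrt (law P f t * law P g u)) ^ 2 ≤
      ent P f + ent P g - ent P h := by
    rw [← hR]
    refine le_trans ?_ (hL ▸ key)
    exact single_le_sum (f := fun q : T × U => (Real.sqrt (law P h q) -
      Real.sqrt (law P f q.1 * law P g q.2)) ^ 2) (fun q _ => sq_nonneg _) hmem
  -- conclude
  set a := law P h (t, u) with ha
  set b := law P f t * law P g u with hb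
  have ha0 : 0 ≤ a := law_nonneg hP _ _
  have hb0 : 0 ≤ b := mul_nonneg (law_nonneg hP _ _) (law_nonneg hP _ _)
  have ha1 : a ≤ 1 := h1 ▸ law_le_total hP _ _
  have hb1 : b ≤ 1 := by
    have e1 : law P f t ≤ 1 := h1 ▸ law_le_total hP _ _
    have e2 : law P g u ≤ 1 := h1 ▸ law_le_total hP _ _
    exact mul_le_one₀ e1 (law_nonneg hP _ _) e2
  have hsa : Real.sqrt a ≤ 1 := Real.sqrt_le_one.2 ha1
  have hsb : Real.sqrt b ≤ 1 := Real.sqrt_le_one.2 hb1
  have e1 : a - b = (Real.sqrt a - Real.sqrt b) * (Real.sqrt a + Real.sqrt b) := by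
    have a1 := Real.mul_self_sqrt ha0
    have a2 := Real.mul_self_sqrt hb0
    linear_combination -a1 + a2
  have e2 : (Real.sqrt a + Real.sqrt b) ^ 2 ≤ 4 := by
    have := Real.sqrt_nonneg a
    have := Real.sqrt_nonneg b
    nlinarith
  rw [e1, mul_pow]
  calc (Real.sqrt a - Real.sqrt b) ^ 2 * (Real.sqrt a + Real.sqrt b) ^ 2
      ≤ (Real.sqrt a - Real.sqrt b) ^ 2 * 4 := mul_le_mul_of_nonneg_left e2 (sq_nonneg _)
    _ ≤ _ := by linarith

end Pool.Agent.Q234.CE
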