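import Mathlib

/-!
# Pairwise independent triples in which any two determine the third (helper234)
-/

set_option autoImplicit false

noncomputable section

namespace Pool.Agent.Q234.CE

open Finset Filter Topology
open scoped Classical

/-- `q = ω ·` a law of three variables, pairwise independent, any two determining the third -/
structure Rig (q : ℕ → ℕ → ℕ → ℝ) (p1 p2 p3 : ℕ → ℝ) (ω : ℝ) : Prop where
  pos : 0 < ω
  n1 : ∀ x, 0 ≤ p1 x
  n2 : ∀ x, 0 ≤ p2 x
  n3 : ∀ x, 0 ≤ p3 x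
  hq : ∀ x y z, 0 ≤ q x y z
  h12 : ∀ x y, HasSum (fun z => q x y z) (p1 x * p2 y * ω)
  h13 : ∀ x z, HasSum (fun y => q x y z) (p1 x * p3 z * ω)
  h23 : ∀ y z, HasSum (fun x => q x y z) (p2 y * p3 z * ω)
  f3 : ∀ x y z z', z ≠ z' → q x y z * q x y z' = 0
  f2 : ∀ x y y' z, y ≠ y' → q x y z * q x y' z = 0
  f1 : ∀ x x' y z, x ≠ x' → q x y z * q x' y z = 0

variable {q : ℕ → ℕ → ℕ → ℝ} {p1 p2 p3 : ℕ → ℝ} {ω : ℝ}

lemma hasSum_single_eq {f : ℕ → ℝ} {s : ℝ} (hf : HasSum f s) {n : ℕ} (hn : 0 < f n)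
    (h : ∀ m, n ≠ m → f n * f m = 0) : f n = s := by
  have h2 : HasSum f (f n) := hasSum_single n fun m hm => by
    rcases mul_eq_zero.1 (h m (Ne.symm hm)) with h3 | h3
    · exact absurd h3 hn.ne'
    · exact h3
  exact h2.unique hf

lemma exists_pos_of_hasSum {f : ℕ → ℝ} {s : ℝ} (hf : HasSum f s) (h0 : ∀ n, 0 ≤ f n)
    (hs : 0 < s) : ∃ n, 0 < f n := by
  by_contra hne
  push Not at hne
  have h1 : f = fun _ => 0 := funext fun n => le_antisymm (hne n) (h0 n)
  rw [h1] at hf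
  exact hs.ne' (hf.unique hasSum_zero)

lemma Rig.eqs (R : Rig q p1 p2 p3 ω) {x y z : ℕ} (h : 0 < q x y z) :
    q x y z = p1 x * p2 y * ω ∧ p1 x = p2 y ∧ p1 x = p3 z ∧ 0 < p1 x := by
  have e1 := hasSum_single_eq (R.h12 x y) h fun m hm => R.f3 x y z m hm
  have e2 := hasSum_single_eq (R.h13 x z) h fun m hm => R.f2 x y m z hm
  have e3 := hasSum_single_eq (R.h23 y z) h fun m hm => R.f1 x m y z hm
  have e1' : q x y z = p1 x * p2 y * ω := e1
  have e2' : q x y z = p1 x * p3 z * ω := e2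
  have e3' : q x y z = p2 y * p3 z * ω := e3
  have hω := R.pos
  have a1 : 0 < p1 x * p2 y := by
    have : 0 < p1 x * p2 y * ω := e1' ▸ h
    exact pos_of_mul_pos_left this hω.le
  have a2 : 0 < p1 x * p3 z := by
    have : 0 < p1 x * p3 z * ω := e2' ▸ h
    exact pos_of_mul_pos_left this hω.le
  have b1 : 0 < p1 x := lt_of_le_of_ne (R.n1 x) fun h => by rw [← h, zero_mul] at a1; exact lt_irrefl _ a1
  have b2 : 0 < p2 y := lt_of_le_of_ne (R.n2 y) fun h => by rw [← h, mul_zero] at a1; exact lt_irrefl _ a1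
  have b3 : 0 < p3 z := lt_of_le_of_ne (R.n3 z) fun h => by rw [← h, mul_zero] at a2; exact lt_irrefl _ a2
  have c1 : p1 x * p2 y = p1 x * p3 z := mul_right_cancel₀ hω.ne' (e1'.symm.trans e2')
  have c2 : p1 x * p3 z = p2 y * p3 z := mul_right_cancel₀ hω.ne' (e2'.symm.trans e3')
  have d1 : p2 y = p3 z := mul_left_cancel₀ b1.ne' c1
  have d2 : p1 x = p2 y := mul_right_cancel₀ b3.ne' c2
  exact ⟨e1', d2, d2.trans d1, b1⟩

lemma Rig.ex12 (R : Rig q p1 p2 p3 ω) {x y : ℕ} (hx : 0 < p1 x) (hy : 0 < p2 y) :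
    ∃ z, 0 < q x y z :=
  exists_pos_of_hasSum (R.h12 x y) (fun z => R.hq x y z) (mul_pos (mul_pos hx hy) R.pos)

lemma Rig.ex13 (R : Rig q p1 p2 p3 ω) {x z : ℕ} (hx : 0 < p1 x) (hz : 0 < p3 z) :
    ∃ y, 0 < q x y z :=
  exists_pos_of_hasSum (R.h13 x z) (fun y => R.hq x y z) (mul_pos (mul_pos hx hz) R.pos)

lemma Rig.atoms (R : Rig q p1 p2 p3 ω) (s1 : HasSum p1 1) (s2 : HasSum p2 1) :
    ∃ α, 0 < α ∧ (∀ x, 0 < p1 x → p1 x = α) ∧ (∀ y, 0 < p2 y → p2 y = α) ∧
      (∀ z, 0 < p3 z → p3 z = α) := by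
  obtain ⟨x0, hx0⟩ := exists_pos_of_hasSum s1 R.n1 one_pos
  obtain ⟨y0, hy0⟩ := exists_pos_of_hasSum s2 R.n2 one_pos
  have h0 : p1 x0 = p2 y0 := by
    obtain ⟨z, hz⟩ := R.ex12 hx0 hy0
    exact (R.eqs hz).2.1
  refine ⟨p1 x0, hx0, fun x hx => ?_, fun y hy => ?_, fun z hz => ?_⟩
  · obtain ⟨z, hz⟩ := R.ex12 hx hy0
    rw [(R.eqs hz).2.1, h0]
  · obtain ⟨z, hz⟩ := R.ex12 hx0 hy
    rw [(R.eqs hz).2.1]
  · obtain ⟨y, hy⟩ := R.ex13 hx0 hz
    rw [(R.eqs hy).2.2.1]

/-- a law with equal atoms and entropy at most `log 2` has one or two atoms -/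
lemma two_atoms {p : ℕ → ℝ} {α : ℝ} (hα : 0 < α) (h0 : ∀ n, 0 ≤ p n) (hp : HasSum p 1)
    (ha : ∀ n, 0 < p n → p n = α)
    (he : ∀ F : Finset ℕ, ∑ n ∈ F, Real.negMulLog (p n) ≤ Real.log 2) :
    α = 1 ∨ (α = 1 / 2 ∧ ∃ x : Bool → ℕ, Function.Injective x ∧ (∀ i, p (x i) = 1 / 2) ∧
      ∀ n, 0 < p n → ∃ i, n = x i) := by
  have hfin : {n | 0 < p n}.Finite := by
    have h1 := hp.summable.tendsto_cofinite_zero
    have h2 : ∀ᶠ n in cofinite, p n < α := h1.eventually_lt_const hα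
    refine (Filter.eventually_cofinite.1 h2).subset fun n hn => ?_
    rw [Set.mem_ofPred_eq, ha n hn]
    exact lt_irrefl _
  set F := hfin.toFinset with hF
  have hmem : ∀ n, n ∈ F ↔ 0 < p n := fun n => by rw [hF, Set.Finite.mem_toFinset]; rfl
  have hsum : ∑ n ∈ F, p n = 1 := by
    refine HasSum.unique (hasSum_sum_of_ne_finset_zero fun n hn => ?_) hp
    by_contra h3
    exact hn ((hmem n).2 (lt_of_le_of_ne (h0 n) (Ne.symm h3)))
  have hcard : (F.card : ℝ) * α = 1 := by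
    rw [← hsum, sum_congr rfl fun n hn => ha n ((hmem n).1 hn), sum_const, nsmul_eq_mul]
  have hlog : -Real.log α ≤ Real.log 2 := by
    have h3 := he F
    rw [sum_congr rfl fun n hn => by rw [ha n ((hmem n).1 hn)], sum_const, nsmul_eq_mul,
      Real.negMulLog] at h3
    have h4 : (F.card : ℝ) * (-α * Real.log α) = -((F.card : ℝ) * α * Real.log α) := by ring
    rw [h4, hcard, one_mul] at h3
    exact h3
  have hα2 : 1 / 2 ≤ α := by
    have h3 : Real.log (1 / 2) ≤ Real.log α := by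
      rw [Real.log_div one_ne_zero two_ne_zero, Real.log_one]
      linarith
    exact (Real.log_le_log_iff (by norm_num) hα).1 h3
  have hc2 : F.card ≤ 2 := by
    by_contra h3
    push Not at h3
    have h4 : (3 : ℝ) ≤ F.card := by exact_mod_cast h3
    nlinarith
  have hc0 : F.card ≠ 0 := by
    intro h3
    rw [h3, Nat.cast_zero, zero_mul] at hcard
    exact zero_ne_one hcard
  have hcc : F.card = 1 ∨ F.card = 2 := by omega
  rcases hcc with h1 | h2
  · left
    rw [h1, Nat.cast_one, one_mul] at hcard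
    exact hcard
  · right
    have hα' : α = 1 / 2 := by
      rw [h2] at hcard
      push_cast at hcard
      linarith
    refine ⟨hα', ?_⟩
    obtain ⟨u, v, huv, hFe⟩ := card_eq_two.1 h2
    refine ⟨fun i => if i then u else v, ?_, ?_, ?_⟩
    · intro i j hij
      cases i <;> cases j <;> simp_all
    · intro i
      rw [← hα']
      refine ha _ ((hmem _).1 ?_)
      rw [hFe]
      cases i <;> simp
    · intro n hn
      have h3 := (hmem n).2 hn
      rw [hFe, mem_insert, mem_singleton] at h3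
      rcases h3 with h3 | h3
      · exact ⟨true, by simpa using h3⟩
      · exact ⟨false, by simpa using h3⟩

lemma bool_latin : ∀ k : Bool → Bool → Bool, (∀ i, k i false ≠ k i true) →
    (∀ j, k false j ≠ k true j) → ∀ i j, k i j = xor (xor i j) (k false false) := by decide

/-- with two equal atoms each, the triple is a xor triple -/
lemma Rig.bits (R : Rig q p1 p2 p3 ω) {x y z : Bool → ℕ}
    (hx : ∀ i, p1 (x i) = 1 / 2) (hy : ∀ i, p2 (y i) = 1 / 2)
    (hyi : Function.Injective y) (hxi : Function.Injective x)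
    (hz : ∀ n, 0 < p3 n → ∃ i, n = z i) :
    ∃ κ : Bool, ∀ i j, q (x i) (y j) (z (xor (xor i j) κ)) = 1 / 4 * ω ∧
      ∀ n, 0 < q (x i) (y j) n → n = z (xor (xor i j) κ) := by
  have h1 : ∀ i j, ∃ k, 0 < q (x i) (y j) (z k) := by
    intro i j
    obtain ⟨n, hn⟩ := R.ex12 (x := x i) (y := y j) (by rw [hx]; norm_num) (by rw [hy]; norm_num)
    have h2 := R.eqs hn
    have h3 : 0 < p3 n := by rw [← h2.2.2.1]; exact h2.2.2.2
    obtain ⟨k, rfl⟩ := hz n h3
    exact ⟨k, hn⟩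
  choose k hk using h1
  have hk1 : ∀ i, k i false ≠ k i true := by
    intro i h
    have h2 := R.f2 (x i) (y false) (y true) (z (k i false)) (fun h => by simpa using hyi h)
    have h3 := hk i true
    rw [← h] at h3
    exact (mul_pos (hk i false) h3).ne' h2
  have hk2 : ∀ j, k false j ≠ k true j := by
    intro j h
    have h2 := R.f1 (x false) (x true) (y j) (z (k false j)) (fun h => by simpa using hxi h)
    have h3 := hk true j
    rw [← h] at h3
    exact (mul_pos (hk false j) h3).ne' h2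
  have hk3 : ∀ i j, k i j = xor (xor i j) (k false false) := bool_latin k hk1 hk2
  refine ⟨k false false, fun i j => ?_⟩
  rw [← hk3]
  refine ⟨?_, fun n hn => ?_⟩
  · rw [(R.eqs (hk i j)).1, hx, hy]
    norm_num
  · by_contra hne
    exact (mul_pos (hk i j) hn).ne' (R.f3 (x i) (y j) (z (k i j)) n (Ne.symm hne))

end Pool.Agent.Q234.CE
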