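import Pool.Agent.Q234.CE.Limit
import Pool.Agent.Q234.CE.Rigid

/-!
# No limit of models has the target entropies (helper234)
-/

set_option autoImplicit false

noncomputable section

namespace Pool.Agent.Q234.CE

open Finset Filter Topology
open scoped Classical

/-- the properties of the target entropies which are used -/
structure Target (h : Finset (Fin 7) → ℝ) : Prop where
  i01 : h {0} + h {1} = h {0, 1}
  i02 : h {0} + h {2} = h {0, 2}
  i12 : h {1} + h {2} = h {1, 2}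
  i34 : h {3} + h {4} = h {3, 4}
  i35 : h {3} + h {5} = h {3, 5}
  i45 : h {4} + h {5} = h {4, 5}
  i346 : h {3, 4} + h {6} = h {3, 4, 6}
  i356 : h {3, 5} + h {6} = h {3, 5, 6}
  i456 : h {4, 5} + h {6} = h {4, 5, 6}
  i01234 : h {0, 1, 2} + h {3, 4} = h {0, 1, 2, 3, 4}
  f01 : h {0, 1, 2} = h {0, 1}
  f02 : h {0, 1, 2} = h {0, 2}
  f12 : h {0, 1, 2} = h {1, 2}
  f012 : h {0, 1, 2, 6} = h {0, 1, 2}
  f345 : h {3, 4, 5, 6} = h {3, 4, 5}
  f346 : h {3, 4, 5, 6} = h {3, 4, 6}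
  f356 : h {3, 4, 5, 6} = h {3, 5, 6}
  f456 : h {3, 4, 5, 6} = h {4, 5, 6}
  e : ∀ i : Fin 7, i ≠ 6 → h {i} = Real.log 2
  e6 : h {6} < Real.log 2
  e6' : 0 < h {6}

variable {M : Finset (Fin 7) → (Fin 7 → ℕ) → ℝ} {h : Finset (Fin 7) → ℝ}

lemma IsLim.hsum' (L : IsLim M h) (S T : Finset (Fin 7)) (i : Fin 7) (hi : i ∉ S)
    (hT : T = insert i S) (g : ℕ → Fin 7 → ℕ) (u : Fin 7 → ℕ) (hg : ∀ n, g n i = n)
    (hg' : ∀ n, ∀ j ∈ S, g n j = u j) : HasSum (fun n => M T (g n)) (M S u) := by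
  have h1 := L.hsum S i hi u
  convert h1 using 2 with n
  rw [hT]
  refine L.congr _ _ _ fun j hj => ?_
  rcases mem_insert.1 hj with rfl | hj
  · rw [hg, Function.update_self]
  · have hji : j ≠ i := fun h => hi (h ▸ hj)
    rw [Function.update_of_ne hji]
    exact hg' n j hj

lemma IsLim.indep' (L : IsLim M h) (S T U : Finset (Fin 7)) (hU : U = S ∪ T)
    (hh : h S + h T = h U) (u uS uT : Fin 7 → ℕ) (hS : ∀ i ∈ S, u i = uS i)
    (hT : ∀ i ∈ T, u i = uT i) : M U u = M S uS * M T uT := by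
  subst hU
  rw [L.indep S T u hh, L.congr S u uS hS, L.congr T u uT hT]

lemma IsLim.func' (L : IsLim M h) (S T U : Finset (Fin 7)) (hU : U = S ∪ T) (hh : h U = h S)
    (u u' : Fin 7 → ℕ) (hS : ∀ i ∈ S, u i = u' i) (hT : ∃ i ∈ T, u i ≠ u' i) :
    M U u * M U u' = 0 := by
  subst hU
  exact L.func S T u u' hh hS hT

/-- one-variable laws -/
def pr (M : Finset (Fin 7) → (Fin 7 → ℕ) → ℝ) (i : Fin 7) (n : ℕ) : ℝ := M {i} (fun _ => n)

lemma IsLim.pr_nonneg (L : IsLim M h) (i : Fin 7) (n : ℕ) : 0 ≤ pr M i n := L.nonneg _ _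

lemma IsLim.pr_sum (L : IsLim M h) (i : Fin 7) : HasSum (pr M i) 1 := by
  have h1 := L.hsum' ∅ {i} i (by simp) (by simp) (fun n _ => n) (fun _ => 0) (fun _ => rfl)
    (fun n j hj => by simp at hj)
  rw [L.empty] at h1
  exact h1

lemma IsLim.rig1 (L : IsLim M h) (ht : Target h) :
    Rig (fun x y z => M {0, 1, 2} ![x, y, z, 0, 0, 0, 0]) (pr M 0) (pr M 1) (pr M 2) 1 where
  pos := one_pos
  n1 := L.pr_nonneg 0
  n2 := L.pr_nonneg 1
  n3 := L.pr_nonneg 2
  hq := fun _ _ _ => L.nonneg _ _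
  h12 := fun x y => by
    have h1 := L.indep' {0} {1} {0, 1} (by decide) ht.i01 ![x, y, 0, 0, 0, 0, 0]
      (fun _ => x) (fun _ => y) (by simp) (by simp)
    have h2 : pr M 0 x * pr M 1 y * 1 = M {0, 1} ![x, y, 0, 0, 0, 0, 0] := by
      rw [h1, mul_one]; rfl
    rw [h2]
    exact L.hsum' {0, 1} {0, 1, 2} 2 (by decide) (by decide) _ _ (by simp) (by simp)
  h13 := fun x z => by
    have h1 := L.indep' {0} {2} {0, 2} (by decide) ht.i02 ![x, 0, z, 0, 0, 0, 0]
      (fun _ => x) (fun _ => z) (by simp) (by simp)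
    have h2 : pr M 0 x * pr M 2 z * 1 = M {0, 2} ![x, 0, z, 0, 0, 0, 0] := by
      rw [h1, mul_one]; rfl
    rw [h2]
    exact L.hsum' {0, 2} {0, 1, 2} 1 (by decide) (by decide) _ _ (by simp) (by simp)
  h23 := fun y z => by
    have h1 := L.indep' {1} {2} {1, 2} (by decide) ht.i12 ![0, y, z, 0, 0, 0, 0]
      (fun _ => y) (fun _ => z) (by simp) (by simp)
    have h2 : pr M 1 y * pr M 2 z * 1 = M {1, 2} ![0, y, z, 0, 0, 0, 0] := by
      rw [h1, mul_one]; rfl
    rw [h2]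
    exact L.hsum' {1, 2} {0, 1, 2} 0 (by decide) (by decide) _ _ (by simp) (by simp)
  f3 := fun x y z z' hne => L.func' {0, 1} {2} {0, 1, 2} (by decide) ht.f01 _ _ (by simp)
    ⟨2, by simp, by simpa using hne⟩
  f2 := fun x y y' z hne => L.func' {0, 2} {1} {0, 1, 2} (by decide) ht.f02 _ _ (by simp)
    ⟨1, by simp, by simpa using hne⟩
  f1 := fun x x' y z hne => L.func' {1, 2} {0} {0, 1, 2} (by decide) ht.f12 _ _ (by simp)
    ⟨0, by simp, by simpa using hne⟩

lemma IsLim.rig2 (L : IsLim M h) (ht : Target h) (w : ℕ) (hw : 0 < pr M 6 w) :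
    Rig (fun a b c => M {3, 4, 5, 6} ![0, 0, 0, a, b, c, w]) (pr M 3) (pr M 4) (pr M 5)
      (pr M 6 w) where
  pos := hw
  n1 := L.pr_nonneg 3
  n2 := L.pr_nonneg 4
  n3 := L.pr_nonneg 5
  hq := fun _ _ _ => L.nonneg _ _
  h12 := fun x y => by
    have h1 := L.indep' {3} {4} {3, 4} (by decide) ht.i34 ![0, 0, 0, x, y, 0, w]
      (fun _ => x) (fun _ => y) (by simp) (by simp)
    have h3 := L.indep' {3, 4} {6} {3, 4, 6} (by decide) ht.i346 ![0, 0, 0, x, y, 0, w]
      ![0, 0, 0, x, y, 0, w] (fun _ => w) (by simp) (by simp)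
    have h2 : pr M 3 x * pr M 4 y * pr M 6 w = M {3, 4, 6} ![0, 0, 0, x, y, 0, w] := by
      rw [h3, h1]; rfl
    rw [h2]
    exact L.hsum' {3, 4, 6} {3, 4, 5, 6} 5 (by decide) (by decide) _ _ (by simp) (by simp)
  h13 := fun x z => by
    have h1 := L.indep' {3} {5} {3, 5} (by decide) ht.i35 ![0, 0, 0, x, 0, z, w]
      (fun _ => x) (fun _ => z) (by simp) (by simp)
    have h3 := L.indep' {3, 5} {6} {3, 5, 6} (by decide) ht.i356 ![0, 0, 0, x, 0, z, w]
      ![0, 0, 0, x, 0, z, w] (fun _ => w) (by simp) (by simp)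
    have h2 : pr M 3 x * pr M 5 z * pr M 6 w = M {3, 5, 6} ![0, 0, 0, x, 0, z, w] := by
      rw [h3, h1]; rfl
    rw [h2]
    exact L.hsum' {3, 5, 6} {3, 4, 5, 6} 4 (by decide) (by decide) _ _ (by simp) (by simp)
  h23 := fun y z => by
    have h1 := L.indep' {4} {5} {4, 5} (by decide) ht.i45 ![0, 0, 0, 0, y, z, w]
      (fun _ => y) (fun _ => z) (by simp) (by simp)
    have h3 := L.indep' {4, 5} {6} {4, 5, 6} (by decide) ht.i456 ![0, 0, 0, 0, y, z, w]
      ![0, 0, 0, 0, y, z, w] (fun _ => w) (by simp) (by simp)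
    have h2 : pr M 4 y * pr M 5 z * pr M 6 w = M {4, 5, 6} ![0, 0, 0, 0, y, z, w] := by
      rw [h3, h1]; rfl
    rw [h2]
    exact L.hsum' {4, 5, 6} {3, 4, 5, 6} 3 (by decide) (by decide) _ _ (by simp) (by simp)
  f3 := fun x y z z' hne => L.func' {3, 4, 6} {5} {3, 4, 5, 6} (by decide) ht.f346 _ _ (by simp)
    ⟨5, by simp, by simpa using hne⟩
  f2 := fun x y y' z hne => L.func' {3, 5, 6} {4} {3, 4, 5, 6} (by decide) ht.f356 _ _ (by simp)
    ⟨4, by simp, by simpa using hne⟩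
  f1 := fun x x' y z hne => L.func' {4, 5, 6} {3} {3, 4, 5, 6} (by decide) ht.f456 _ _ (by simp)
    ⟨3, by simp, by simpa using hne⟩

lemma parity_cases : ∀ s : Bool → Bool → Bool,
    xor (xor (s false false) (s false true)) (xor (s true false) (s true true)) = true ∨
    (∀ i j, s i j = s false false) ∨
    ((univ.filter fun p : Bool × Bool => s p.1 p.2 = true).card = 2 ∧
      (univ.filter fun p : Bool × Bool => s p.1 p.2 = false).card = 2) := by decide

theorem no_limit (L : IsLim M h) (ht : Target h) : False := by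
  have hM1 : ∀ i n, M {i} (fun _ => n) = pr M i n := fun _ _ => rfl
  -- entropies of single variables
  have hent : ∀ i : Fin 7, i ≠ 6 → ∀ F : Finset ℕ, ∑ n ∈ F, Real.negMulLog (pr M i n) ≤
      Real.log 2 := fun i hi F => by
    rw [← ht.e i hi]
    exact L.ent1 i F
  -- the inputs
  have R1 := L.rig1 ht
  obtain ⟨α, hα, hα0, hα1, hα2⟩ := R1.atoms (L.pr_sum 0) (L.pr_sum 1)
  have hα' : α ≠ 1 := by
    rintro rfl
    obtain ⟨n, hn⟩ := exists_pos_of_hasSum (L.pr_sum 1) (L.pr_nonneg 1) one_pos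
    have h1 := L.tl (fun _ => n) (hα1 n hn)
    have h2 := ht.i02
    have h3 := ht.f12
    have h4 := ht.e 0 (by decide)
    have h5 := Real.log_pos (show (1 : ℝ) < 2 by norm_num)
    linarith
  obtain ⟨rfl, x, hxi, hx, hx'⟩ := (two_atoms hα (L.pr_nonneg 0) (L.pr_sum 0) hα0
    (hent 0 (by decide))).resolve_left hα'
  obtain ⟨-, y, hyi, hy, hy'⟩ := (two_atoms hα (L.pr_nonneg 1) (L.pr_sum 1) hα1
    (hent 1 (by decide))).resolve_left hα'
  obtain ⟨-, z0, hzi0, hz0, hz0'⟩ := (two_atoms hα (L.pr_nonneg 2) (L.pr_sum 2) hα2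
    (hent 2 (by decide))).resolve_left hα'
  obtain ⟨κ0, hκ0⟩ := R1.bits hx hy hyi hxi hz0'
  obtain ⟨z, hz⟩ : ∃ z : Bool → ℕ, ∀ i, z i = z0 (xor i κ0) := ⟨fun i => z0 (xor i κ0), fun _ => rfl⟩
  have hzi : Function.Injective z := by
    intro i j hij
    rw [hz, hz] at hij
    have := hzi0 hij
    revert this
    cases i <;> cases j <;> cases κ0 <;> simp
  have hxyz : ∀ i j, M {0, 1, 2} ![x i, y j, z (xor i j), 0, 0, 0, 0] = 1 / 4 := fun i j => by
    rw [hz]
    have := (hκ0 i j).1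
    simpa using this
  -- W is not constant
  have hWc : ∀ w, pr M 6 w ≠ 1 := by
    intro w hw
    have hz6 : ∀ n, n ≠ w → pr M 6 n = 0 := by
      intro n hn
      have h1 := sum_le_hasSum {w, n} (fun _ _ => L.pr_nonneg 6 _) (L.pr_sum 6)
      rw [sum_pair (Ne.symm hn), hw] at h1
      linarith [L.pr_nonneg 6 n]
    have h1 : ∀ p : Bool × Bool, M {0, 1, 2, 6} ![x p.1, y p.2, z (xor p.1 p.2), 0, 0, 0, w] =
        1 / 4 := by
      rintro ⟨i, j⟩
      have h2 := L.hsum' {0, 1, 2} {0, 1, 2, 6} 6 (by decide) (by decide)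
        (fun n => ![x i, y j, z (xor i j), 0, 0, 0, n]) ![x i, y j, z (xor i j), 0, 0, 0, 0]
        (by simp) (by simp)
      rw [hxyz] at h2
      refine HasSum.unique (hasSum_single w fun n hn => ?_) h2
      have h3 := L.mono {0, 1, 2, 6} {6} ![x i, y j, z (xor i j), 0, 0, 0, n] (by simp)
      have h4 : M {6} ![x i, y j, z (xor i j), 0, 0, 0, n] = pr M 6 n :=
        L.congr _ _ _ (by simp)
      rw [h4, hz6 n hn] at h3
      exact le_antisymm h3 (L.nonneg _ _)
    have h2 := L.cond {6} {0, 1, 2} (Bool × Bool) inferInstance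
      (fun p => ![x p.1, y p.2, z (xor p.1 p.2), 0, 0, 0, w])
      (by
        rintro ⟨i, j⟩ ⟨i', j'⟩ hne
        by_cases h3 : i = i'
        · refine ⟨1, by decide, fun h4 => hne ?_⟩
          rw [h3, hyi (show y j = y j' by simpa using h4)]
        · exact ⟨0, by decide, fun h4 => h3 (hxi (show x i = x i' by simpa using h4))⟩)
      (by
        rintro ⟨i, j⟩
        rw [← hw]
        exact L.congr _ _ _ (by simp))
      (by
        intro p
        have : ({0, 1, 2} ∪ {6} : Finset (Fin 7)) = {0, 1, 2, 6} := by decide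
        rw [this, h1]
        norm_num)
    have h3 : ({0, 1, 2} ∪ {6} : Finset (Fin 7)) = {0, 1, 2, 6} := by decide
    rw [h3] at h2
    simp_rw [h1] at h2
    rw [sum_const, card_univ, Fintype.card_prod, Fintype.card_bool, nsmul_eq_mul,
      Real.negMulLog, Real.log_div one_ne_zero (by norm_num), Real.log_one,
      show (4 : ℝ) = 2 ^ 2 by norm_num, Real.log_pow] at h2
    have h4 := ht.f012
    have h5 := ht.f01
    have h6 := ht.i01
    have h7 := ht.e 0 (by decide)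
    have h8 := ht.e 1 (by decide)
    have h9 := ht.e6'
    push_cast at h2
    linarith
  -- the outputs
  obtain ⟨w0, hw0⟩ := exists_pos_of_hasSum (L.pr_sum 6) (L.pr_nonneg 6) one_pos
  obtain ⟨β, hβ, hβ3, hβ4, hβ5⟩ := (L.rig2 ht w0 hw0).atoms (L.pr_sum 3) (L.pr_sum 4)
  have hβ' : β ≠ 1 := by
    rintro rfl
    obtain ⟨a, ha⟩ := exists_pos_of_hasSum (L.pr_sum 3) (L.pr_nonneg 3) one_pos
    obtain ⟨b, hb⟩ := exists_pos_of_hasSum (L.pr_sum 4) (L.pr_nonneg 4) one_pos
    obtain ⟨c, hc⟩ := exists_pos_of_hasSum (L.pr_sum 5) (L.pr_nonneg 5) one_pos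
    have hc' : ∀ n, 0 < pr M 5 n → n = c := by
      intro n hn
      by_contra hne
      have h1 := sum_le_hasSum {n, c} (fun _ _ => L.pr_nonneg 5 _) (L.pr_sum 5)
      rw [sum_pair hne, hβ5 n hn, hβ5 c hc] at h1
      linarith
    have hpos : ∀ w, 0 < pr M 6 w → 0 < M {3, 4, 5, 6} ![0, 0, 0, a, b, c, w] := by
      intro w hw
      obtain ⟨n, hn⟩ := (L.rig2 ht w hw).ex12 ha hb
      have h1 := (L.rig2 ht w hw).eqs hn
      have h2 : n = c := hc' n (by rw [← h1.2.2.1]; exact h1.2.2.2)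
      rw [h2] at hn
      exact hn
    refine hWc w0 ?_
    have h2 : ∀ n, n ≠ w0 → pr M 6 n = 0 := by
      intro n hn
      by_contra hne
      have h3 := hpos n (lt_of_le_of_ne (L.pr_nonneg 6 n) (Ne.symm hne))
      have h4 := L.func' {3, 4, 5} {6} {3, 4, 5, 6} (by decide) ht.f345
        ![0, 0, 0, a, b, c, n] ![0, 0, 0, a, b, c, w0] (by simp) ⟨6, by simp, by simpa using hn⟩
      exact (mul_pos h3 (hpos w0 hw0)).ne' h4
    exact HasSum.unique (hasSum_single w0 h2) (L.pr_sum 6)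
  obtain ⟨rfl, a, hai, ha, ha'⟩ := (two_atoms hβ (L.pr_nonneg 3) (L.pr_sum 3) hβ3
    (hent 3 (by decide))).resolve_left hβ'
  obtain ⟨-, b, hbi, hb, hb'⟩ := (two_atoms hβ (L.pr_nonneg 4) (L.pr_sum 4) hβ4
    (hent 4 (by decide))).resolve_left hβ'
  obtain ⟨-, c, hci, hc, hc'⟩ := (two_atoms hβ (L.pr_nonneg 5) (L.pr_sum 5) hβ5
    (hent 5 (by decide))).resolve_left hβ'
  have hκ : ∀ w, ∃ κ : Bool, 0 < pr M 6 w → ∀ k l,
      M {3, 4, 5, 6} ![0, 0, 0, a k, b l, c (xor (xor k l) κ), w] = 1 / 4 * pr M 6 w ∧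
      ∀ n, 0 < M {3, 4, 5, 6} ![0, 0, 0, a k, b l, n, w] → n = c (xor (xor k l) κ) := by
    intro w
    by_cases hw : 0 < pr M 6 w
    · obtain ⟨κ, hκ⟩ := (L.rig2 ht w hw).bits ha hb hbi hai hc'
      exact ⟨κ, fun _ => hκ⟩
    · exact ⟨true, fun h => absurd h hw⟩
  choose κ hκ using hκ
  have hκinj : ∀ w w', 0 < pr M 6 w → 0 < pr M 6 w' → κ w = κ w' → w = w' := by
    intro w w' hw hw' he
    by_contra hne
    have h1 := (hκ w hw true true).1
    have h2 := (hκ w' hw' true true).1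
    rw [← he] at h2
    have h4 := L.func' {3, 4, 5} {6} {3, 4, 5, 6} (by decide) ht.f345
      ![0, 0, 0, a true, b true, c (xor (xor true true) (κ w)), w]
      ![0, 0, 0, a true, b true, c (xor (xor true true) (κ w)), w'] (by simp)
      ⟨6, by simp, by simpa using hne⟩
    rw [h1, h2] at h4
    exact (mul_pos (mul_pos (by norm_num) hw) (mul_pos (by norm_num) hw')).ne' h4
  -- W as a function of the inputs
  have hW : ∀ i j, ∃ w, M {0, 1, 2, 6} ![x i, y j, z (xor i j), 0, 0, 0, w] = 1 / 4 ∧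
      ∀ n, 0 < M {0, 1, 2, 6} ![x i, y j, z (xor i j), 0, 0, 0, n] → n = w := by
    intro i j
    have h2 := L.hsum' {0, 1, 2} {0, 1, 2, 6} 6 (by decide) (by decide)
      (fun n => ![x i, y j, z (xor i j), 0, 0, 0, n]) ![x i, y j, z (xor i j), 0, 0, 0, 0]
      (by simp) (by simp)
    rw [hxyz] at h2
    obtain ⟨w, hw⟩ := exists_pos_of_hasSum h2 (fun n => L.nonneg _ _) (by norm_num)
    have h3 : ∀ m, w ≠ m → M {0, 1, 2, 6} ![x i, y j, z (xor i j), 0, 0, 0, w] *
        M {0, 1, 2, 6} ![x i, y j, z (xor i j), 0, 0, 0, m] = 0 := fun m hm =>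
      L.func' {0, 1, 2} {6} {0, 1, 2, 6} (by decide) ht.f012 _ _ (by simp)
        ⟨6, by simp, by simpa using hm⟩
    refine ⟨w, hasSum_single_eq h2 hw h3, fun n hn => ?_⟩
    by_contra hne
    exact (mul_pos hw hn).ne' (h3 n (Ne.symm hne))
  choose W hW1 hW2 using hW
  have hWpos : ∀ i j, 0 < pr M 6 (W i j) := by
    intro i j
    have h3 := L.mono {0, 1, 2, 6} {6} ![x i, y j, z (xor i j), 0, 0, 0, W i j] (by simp)
    have h4 : M {6} ![x i, y j, z (xor i j), 0, 0, 0, W i j] = pr M 6 (W i j) :=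
      L.congr _ _ _ (by simp)
    rw [h4, hW1] at h3
    linarith
  have hWmass : ∀ (G : Finset (Bool × Bool)) (w : ℕ), (∀ p ∈ G, W p.1 p.2 = w) →
      (G.card : ℝ) / 4 ≤ pr M 6 w := by
    intro G w hG
    have h1 := L.super {6} {0, 1} G inferInstance
      (fun p => ![x p.1.1, y p.1.2, z (xor p.1.1 p.1.2), 0, 0, 0, w]) (fun _ => w) (by simp)
      (by
        rintro ⟨⟨i, j⟩, hp⟩ ⟨⟨i', j'⟩, hp'⟩ hne
        by_cases h3 : i = i'
        · refine ⟨1, by decide, fun h4 => hne ?_⟩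
          have h5 := hyi (show y j = y j' by simpa using h4)
          subst h3
          subst h5
          rfl
        · exact ⟨0, by decide, fun h4 => h3 (hxi (show x i = x i' by simpa using h4))⟩)
    have h2 : ∀ p : G, (1 : ℝ) / 4 ≤ M ({6} ∪ {0, 1})
        ![x p.1.1, y p.1.2, z (xor p.1.1 p.1.2), 0, 0, 0, w] := by
      intro p
      have h3 := L.mono {0, 1, 2, 6} ({6} ∪ {0, 1})
        ![x p.1.1, y p.1.2, z (xor p.1.1 p.1.2), 0, 0, 0, w] (by decide)
      rw [← hG p.1 p.2, hW1] at h3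
      rw [← hG p.1 p.2]
      exact h3
    have h3 : ∑ _p : G, (1 : ℝ) / 4 ≤ pr M 6 w := (sum_le_sum fun p _ => h2 p).trans h1
    rw [sum_const, card_univ, Fintype.card_coe, nsmul_eq_mul] at h3
    linarith
  -- parity
  have hodd : xor (xor (κ (W false false)) (κ (W false true)))
      (xor (κ (W true false)) (κ (W true true))) = true := by
    rcases parity_cases fun i j => κ (W i j) with h1 | h1 | ⟨h1, h2⟩
    · exact h1
    · exfalso
      have h2 := hWmass univ (W false false) fun p _ =>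
        hκinj _ _ (hWpos _ _) (hWpos _ _) (h1 p.1 p.2)
      rw [card_univ, Fintype.card_prod, Fintype.card_bool] at h2
      have h3 : pr M 6 (W false false) ≤ 1 := L.le_one _ _
      refine hWc (W false false) (le_antisymm h3 (le_trans ?_ h2))
      norm_num
    · exfalso
      obtain ⟨p, hp⟩ := card_pos.1 (by rw [h1]; norm_num :
        0 < (univ.filter fun p : Bool × Bool => κ (W p.1 p.2) = true).card)
      obtain ⟨p', hp'⟩ := card_pos.1 (by rw [h2]; norm_num :
        0 < (univ.filter fun p : Bool × Bool => κ (W p.1 p.2) = false).card)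
      rw [mem_filter] at hp hp'
      have h3 := hWmass (univ.filter fun p : Bool × Bool => κ (W p.1 p.2) = true)
        (W p.1 p.2) fun r hr =>
        hκinj _ _ (hWpos _ _) (hWpos _ _) ((mem_filter.1 hr).2.trans hp.2.symm)
      have h4 := hWmass (univ.filter fun p : Bool × Bool => κ (W p.1 p.2) = false)
        (W p'.1 p'.2) fun r hr =>
        hκinj _ _ (hWpos _ _) (hWpos _ _) ((mem_filter.1 hr).2.trans hp'.2.symm)
      rw [h1] at h3
      rw [h2] at h4
      have hne : W p.1 p.2 ≠ W p'.1 p'.2 := by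
        intro h
        have := hp.2
        rw [h, hp'.2] at this
        exact Bool.false_ne_true this
      have h5 := sum_le_hasSum {W p.1 p.2, W p'.1 p'.2} (fun _ _ => L.pr_nonneg 6 _) (L.pr_sum 6)
      rw [sum_pair hne] at h5
      push_cast at h3 h4
      have h6 : pr M 6 (W p.1 p.2) = 1 / 2 := by linarith
      have h7 : pr M 6 (W p'.1 p'.2) = 1 / 2 := by linarith
      have h8 := L.ent1 6 {W p.1 p.2, W p'.1 p'.2}
      rw [sum_pair hne, hM1, hM1, h6, h7, Real.negMulLog,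
        Real.log_div one_ne_zero two_ne_zero, Real.log_one] at h8
      have h9 := ht.e6
      linarith
  -- the correlations
  have hcorr : ∀ i j k l, M {0, 1, 2, 3, 4, 5}
      ![x i, y j, z (xor i j), a k, b l, c (xor (xor k l) (κ (W i j))), 0] = 1 / 16 := by
    intro i j k l
    have h1 := L.indep' {0, 1, 2} {3, 4} {0, 1, 2, 3, 4} (by decide) ht.i01234
      ![x i, y j, z (xor i j), a k, b l, 0, 0] ![x i, y j, z (xor i j), 0, 0, 0, 0]
      ![0, 0, 0, a k, b l, 0, 0] (by simp) (by simp)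
    have h2 := L.indep' {3} {4} {3, 4} (by decide) ht.i34 ![0, 0, 0, a k, b l, 0, 0]
      (fun _ => a k) (fun _ => b l) (by simp) (by simp)
    rw [hxyz, h2, hM1, hM1, ha, hb] at h1
    have h3 := L.hsum' {0, 1, 2, 3, 4} {0, 1, 2, 3, 4, 5} 5 (by decide) (by decide)
      (fun n => ![x i, y j, z (xor i j), a k, b l, n, 0])
      ![x i, y j, z (xor i j), a k, b l, 0, 0] (by simp) (by simp)
    rw [h1] at h3
    have h4 : (1 : ℝ) / 16 = 1 / 4 * (1 / 2 * (1 / 2)) := by norm_num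
    rw [h4]
    refine HasSum.unique (hasSum_single (c (xor (xor k l) (κ (W i j)))) fun n hn => ?_) h3
    by_contra hne
    have h5 : 0 < M {0, 1, 2, 3, 4, 5} ![x i, y j, z (xor i j), a k, b l, n, 0] :=
      lt_of_le_of_ne (L.nonneg _ _) (Ne.symm hne)
    have h6 := L.hsum' {0, 1, 2, 3, 4, 5} {0, 1, 2, 3, 4, 5, 6} 6 (by decide) (by decide)
      (fun w => ![x i, y j, z (xor i j), a k, b l, n, w])
      ![x i, y j, z (xor i j), a k, b l, n, 0] (by simp) (by simp)
    obtain ⟨w, hw⟩ := exists_pos_of_hasSum h6 (fun n => L.nonneg _ _) h5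
    have h7 := L.mono {0, 1, 2, 3, 4, 5, 6} {0, 1, 2, 6}
      ![x i, y j, z (xor i j), a k, b l, n, w] (by decide)
    have h8 : M {0, 1, 2, 6} ![x i, y j, z (xor i j), a k, b l, n, w] =
        M {0, 1, 2, 6} ![x i, y j, z (xor i j), 0, 0, 0, w] := L.congr _ _ _ (by simp)
    rw [h8] at h7
    have h9 := hW2 i j w (hw.trans_le h7)
    have h10 := L.mono {0, 1, 2, 3, 4, 5, 6} {3, 4, 5, 6}
      ![x i, y j, z (xor i j), a k, b l, n, w] (by decide)
    have h11 : M {3, 4, 5, 6} ![x i, y j, z (xor i j), a k, b l, n, w] =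
        M {3, 4, 5, 6} ![0, 0, 0, a k, b l, n, w] := L.congr _ _ _ (by simp)
    rw [h11] at h10
    subst h9
    exact hn ((hκ _ (hWpos i j) k l).2 n (hw.trans_le h10))
  have hfin := L.bell x y z a b c hai hbi hci (fun i j => κ (W i j)) hodd (3 / 10) (by
    intro i j
    rw [hM1, hM1, hx, hy]
    norm_num)
  simp_rw [hcorr] at hfin
  norm_num at hfin

end Pool.Agent.Q234.CE
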