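import Pool.Agent.Q234.CE.Model

/-!
# Pointwise limits of models (helper234)
-/

set_option autoImplicit false

noncomputable section

namespace Pool.Agent.Q234.CE

open Finset Filter Topology
open scoped Classical

/-- the facts used about a pointwise limit of models whose entropies converge to `h` -/
structure IsLim (M : Finset (Fin 7) → (Fin 7 → ℕ) → ℝ) (h : Finset (Fin 7) → ℝ) : Prop where
  nonneg : ∀ S u, 0 ≤ M S u
  le_one : ∀ S u, M S u ≤ 1
  empty : ∀ u, M ∅ u = 1
  congr : ∀ S u u', (∀ i ∈ S, u i = u' i) → M S u = M S u'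
  mono : ∀ S T u, T ⊆ S → M S u ≤ M T u
  super : ∀ (S T : Finset (Fin 7)) (ι : Type) (_ : Fintype ι) (g : ι → Fin 7 → ℕ) (u : Fin 7 → ℕ),
    (∀ a, ∀ i ∈ S, g a i = u i) → (∀ a b, a ≠ b → ∃ i ∈ T, g a i ≠ g b i) →
    ∑ a, M (S ∪ T) (g a) ≤ M S u
  hsum : ∀ (S : Finset (Fin 7)) (i : Fin 7), i ∉ S → ∀ (u : Fin 7 → ℕ),
    HasSum (fun n => M (insert i S) (Function.update u i n)) (M S u)
  indep : ∀ (S T : Finset (Fin 7)) (u : Fin 7 → ℕ), h S + h T = h (S ∪ T) →
    M (S ∪ T) u = M S u * M T u
  func : ∀ (S T : Finset (Fin 7)) (u u' : Fin 7 → ℕ), h (S ∪ T) = h S →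
    (∀ i ∈ S, u i = u' i) → (∃ i ∈ T, u i ≠ u' i) → M (S ∪ T) u * M (S ∪ T) u' = 0
  ent1 : ∀ (i : Fin 7) (F : Finset ℕ), ∑ n ∈ F, Real.negMulLog (M {i} (fun _ => n)) ≤ h {i}
  cond : ∀ (S T : Finset (Fin 7)) (ι : Type) (_ : Fintype ι) (g : ι → Fin 7 → ℕ),
    (∀ a b, a ≠ b → ∃ i ∈ T ∪ S, g a i ≠ g b i) → (∀ a, M S (g a) = 1) →
    (∀ a, 0 < M (T ∪ S) (g a)) →
    ∑ a, Real.negMulLog (M (T ∪ S) (g a)) ≤ h (T ∪ S) - h S
  tl : ∀ u, M {1} u = 1 → h {0, 2} - h {2} ≤ h {0, 1, 2} - h {1, 2}
  bell : ∀ (x y z a b c : Bool → ℕ), Function.Injective a → Function.Injective b →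
    Function.Injective c → ∀ s : Bool → Bool → Bool,
    xor (xor (s false false) (s false true)) (xor (s true false) (s true true)) = true →
    ∀ K : ℝ, (∀ i j, M {0} (fun _ => x i) * M {1} (fun _ => y j) < K) →
    ∑ i, ∑ j, ∑ k, ∑ l, M {0, 1, 2, 3, 4, 5}
      ![x i, y j, z (xor i j), a k, b l, c (xor (xor k l) (s i j)), 0] ≤ 3 * K

theorem exists_limit (M : ℕ → Finset (Fin 7) → (Fin 7 → ℕ) → ℝ) (H : ℕ → Finset (Fin 7) → ℝ)
    (h : Finset (Fin 7) → ℝ) (hM : ∀ n, IsModel (M n) (H n))
    (hH : ∀ S, Tendsto (fun n => H n S) atTop (𝓝 (h S))) : ∃ M', IsLim M' h := by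
  have hex : ∀ S u, ∃ a, Tendsto (fun n => M n S u) (hyperfilter ℕ : Filter ℕ) (𝓝 a) := by
    intro S u
    obtain ⟨a, -, ha⟩ := (isCompact_Icc (a := (0 : ℝ)) (b := 1)).ultrafilter_le_nhds
      ((hyperfilter ℕ).map (fun n => M n S u)) (by
        rw [le_principal_iff]
        refine Filter.mem_map.2 (Filter.univ_mem' fun n => ?_)
        exact ⟨(hM n).nonneg S u, (hM n).le_one S u⟩)
    exact ⟨a, ha⟩
  choose M' hM' using hex
  have hH' : ∀ S, Tendsto (fun n => H n S) (hyperfilter ℕ : Filter ℕ) (𝓝 (h S)) := fun S =>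
    (hH S).mono_left Nat.hyperfilter_le_atTop
  refine ⟨M', ⟨?_, ?_, ?_, ?_, ?_, ?_, ?_, ?_, ?_, ?_, ?_, ?_, ?_⟩⟩
  · -- nonneg
    exact fun S u => ge_of_tendsto (hM' S u) (Eventually.of_forall fun n => (hM n).nonneg S u)
  · -- le_one
    exact fun S u => le_of_tendsto (hM' S u) (Eventually.of_forall fun n => (hM n).le_one S u)
  · -- empty
    intro u
    refine tendsto_nhds_unique (hM' ∅ u) ?_
    simp_rw [fun n => (hM n).empty u]
    exact tendsto_const_nhds
  · -- congr
    intro S u u' huu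
    refine tendsto_nhds_unique (hM' S u) ?_
    simp_rw [fun n => (hM n).congr S u u' huu]
    exact hM' S u'
  · -- mono
    intro S T u hST
    exact le_of_tendsto_of_tendsto (hM' S u) (hM' T u)
      (Eventually.of_forall fun n => (hM n).mono S T u hST)
  · -- super
    intro S T ι inst g u hg hd
    exact le_of_tendsto_of_tendsto (tendsto_finsetSum _ fun a _ => hM' (S ∪ T) (g a)) (hM' S u)
      (Eventually.of_forall fun n => (hM n).super S T ι inst g u hg hd)
  · -- hsum
    intro S i hi u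
    have hnn : ∀ n, 0 ≤ M' (insert i S) (Function.update u i n) := fun n =>
      ge_of_tendsto (hM' _ _) (Eventually.of_forall fun k => (hM k).nonneg _ _)
    have hpart : ∀ F : Finset ℕ, ∑ n ∈ F, M' (insert i S) (Function.update u i n) ≤ M' S u :=
      fun F => le_of_tendsto_of_tendsto (tendsto_finsetSum _ fun a _ => hM' _ _) (hM' S u)
        (Eventually.of_forall fun n => (hM n).part S i hi u F)
    have htail : ∀ N : ℕ, 0 < N → M' S u ≤
        ∑ n ∈ range N, M' (insert i S) (Function.update u i n) + h {i} / Real.log (N + 1) :=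
      fun N hN => le_of_tendsto_of_tendsto (hM' S u)
        ((tendsto_finsetSum _ fun a _ => hM' _ _).add ((hH' {i}).div_const _))
        (Eventually.of_forall fun n => (hM n).tail S i hi u N hN)
    have hs : Summable fun n => M' (insert i S) (Function.update u i n) :=
      summable_of_sum_le hnn hpart
    have hle : ∑' n, M' (insert i S) (Function.update u i n) ≤ M' S u :=
      Real.tsum_le_of_sum_le hnn hpart
    have hge : M' S u ≤ ∑' n, M' (insert i S) (Function.update u i n) := by
      have hlim : Tendsto (fun N : ℕ => ∑ n ∈ range N, M' (insert i S) (Function.update u i n) +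
          h {i} / Real.log (N + 1)) atTop
          (𝓝 (∑' n, M' (insert i S) (Function.update u i n) + 0)) := by
        refine hs.hasSum.tendsto_sum_nat.add ?_
        refine Tendsto.const_div_atTop ?_ _
        refine Real.tendsto_log_atTop.comp ?_
        exact tendsto_atTop_add_const_right _ _ tendsto_natCast_atTop_atTop
      rw [add_zero] at hlim
      exact ge_of_tendsto hlim (eventually_atTop.2 ⟨1, fun N hN => htail N hN⟩)
    have := hs.hasSum
    rwa [le_antisymm hle hge] at this
  · -- indep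
    intro S T u hST
    have h1 : (M' (S ∪ T) u - M' S u * M' T u) ^ 2 ≤ 4 * (h S + h T - h (S ∪ T)) :=
      le_of_tendsto_of_tendsto (((hM' (S ∪ T) u).sub ((hM' S u).mul (hM' T u))).pow 2)
        ((((hH' S).add (hH' T)).sub (hH' (S ∪ T))).const_mul 4)
        (Eventually.of_forall fun n => (hM n).indep S T u)
    rw [hST, sub_self, mul_zero] at h1
    have h2 := (pow_eq_zero_iff two_ne_zero).1 (le_antisymm h1 (sq_nonneg _))
    linarith
  · -- func
    intro S T u u' hST huu hne
    have h1 : M' (S ∪ T) u * M' (S ∪ T) u' ≤ h (S ∪ T) - h S :=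
      le_of_tendsto_of_tendsto ((hM' _ _).mul (hM' _ _)) ((hH' _).sub (hH' _))
        (Eventually.of_forall fun n => (hM n).func S T u u' huu hne)
    rw [hST, sub_self] at h1
    exact le_antisymm h1 (mul_nonneg
      (ge_of_tendsto (hM' _ _) (Eventually.of_forall fun k => (hM k).nonneg _ _))
      (ge_of_tendsto (hM' _ _) (Eventually.of_forall fun k => (hM k).nonneg _ _)))
  · -- ent1
    intro i F
    exact le_of_tendsto_of_tendsto (tendsto_finsetSum _ fun n _ =>
      (Real.continuous_negMulLog.tendsto _).comp (hM' {i} (fun _ => n))) (hH' {i})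
      (Eventually.of_forall fun n => (hM n).ent1 i F)
  · -- cond
    intro S T ι inst g hg hS hpos
    refine le_of_tendsto_of_tendsto ?_ ((hH' (T ∪ S)).sub (hH' S))
      (Eventually.of_forall fun n => (hM n).cond S T ι inst g hg)
    refine tendsto_finsetSum _ fun a _ => ?_
    have e1 : Real.negMulLog (M' (T ∪ S) (g a)) =
        M' (T ∪ S) (g a) * (Real.log (M' S (g a)) - Real.log (M' (T ∪ S) (g a))) := by
      rw [hS a, Real.log_one, Real.negMulLog]
      ring
    rw [e1]
    refine (hM' _ _).mul (((Real.continuousAt_log ?_).tendsto.comp (hM' _ _)).sub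
      ((Real.continuousAt_log ?_).tendsto.comp (hM' _ _)))
    · rw [hS a]
      exact one_ne_zero
    · exact (hpos a).ne'
  · -- tl
    intro u hu
    have h1 : h {0, 2} - h {2} ≤ (h {0, 1, 2} - h {1, 2}) + (1 - M' {1} u) * h {0} +
        Real.negMulLog (1 - M' {1} u) + Real.negMulLog (M' {1} u) :=
      le_of_tendsto_of_tendsto ((hH' _).sub (hH' _))
        (((((hH' _).sub (hH' _)).add ((tendsto_const_nhds.sub (hM' {1} u)).mul (hH' _))).add
          ((Real.continuous_negMulLog.tendsto _).comp (tendsto_const_nhds.sub (hM' {1} u)))).add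
          ((Real.continuous_negMulLog.tendsto _).comp (hM' {1} u)))
        (Eventually.of_forall fun n => (hM n).tl u)
    rw [hu] at h1
    simpa using h1
  · -- bell
    intro x y z a b c ha hb hc s hs K hK
    have h1 : ∀ i j, ∀ᶠ n in (hyperfilter ℕ : Filter ℕ),
        M n {0} (fun _ => x i) * M n {1} (fun _ => y j) < K := fun i j =>
      ((hM' {0} (fun _ => x i)).mul (hM' {1} (fun _ => y j))).eventually_lt_const (hK i j)
    have h2 : ∀ᶠ n in (hyperfilter ℕ : Filter ℕ), ∀ i j,
        M n {0} (fun _ => x i) * M n {1} (fun _ => y j) ≤ K := by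
      rw [eventually_all]
      intro i
      rw [eventually_all]
      intro j
      exact (h1 i j).mono fun n hn => hn.le
    refine le_of_tendsto (tendsto_finsetSum _ fun i _ => tendsto_finsetSum _ fun j _ =>
      tendsto_finsetSum _ fun k _ => tendsto_finsetSum _ fun l _ => hM' _ _)
      (h2.mono fun n hn => (hM n).bell x y z a b c ha hb hc s hs K hn)

end Pool.Agent.Q234.CE
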