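import Pool.Agent.Q234.CE.Tail

/-!
# Marginals and entropies of seven natural-number valued variables (helper234)
-/

set_option autoImplicit false

noncomputable section

namespace Pool.Agent.Q234.CE

open Finset
open scoped Classical

/-- erase the coordinates outside `S` -/
def cut (S : Finset (Fin 7)) (u : Fin 7 → ℕ) : Fin 7 → ℕ := fun i => if i ∈ S then u i else 0

lemma cut_eq {S : Finset (Fin 7)} {u u' : Fin 7 → ℕ} :
    cut S u = cut S u' ↔ ∀ i ∈ S, u i = u' i := by
  constructor
  · intro h i hi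
    have := congrFun h i
    simpa [cut, hi] using this
  · intro h
    funext i
    by_cases hi : i ∈ S
    · simp [cut, hi, h i hi]
    · simp [cut, hi]

/-- the two-sided Mermin sum of `M` is at most `3 K` -/
def BellBound (M : Finset (Fin 7) → (Fin 7 → ℕ) → ℝ) : Prop :=
  ∀ (x y z a b c : Bool → ℕ), Function.Injective a → Function.Injective b →
    Function.Injective c → ∀ s : Bool → Bool → Bool,
    xor (xor (s false false) (s false true)) (xor (s true false) (s true true)) = true →
    ∀ K : ℝ, (∀ i j, M {0} (fun _ => x i) * M {1} (fun _ => y j) ≤ K) →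
    ∑ i, ∑ j, ∑ k, ∑ l, M {0, 1, 2, 3, 4, 5}
      ![x i, y j, z (xor i j), a k, b l, c (xor (xor k l) (s i j)), 0] ≤ 3 * K

/-- the facts used about one classical model -/
structure IsModel (M : Finset (Fin 7) → (Fin 7 → ℕ) → ℝ) (H : Finset (Fin 7) → ℝ) : Prop where
  nonneg : ∀ S u, 0 ≤ M S u
  le_one : ∀ S u, M S u ≤ 1
  empty : ∀ u, M ∅ u = 1
  congr : ∀ S u u', (∀ i ∈ S, u i = u' i) → M S u = M S u'
  mono : ∀ S T u, T ⊆ S → M S u ≤ M T u
  super : ∀ (S T : Finset (Fin 7)) (ι : Type) (_ : Fintype ι) (g : ι → Fin 7 → ℕ) (u : Fin 7 → ℕ),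
    (∀ a, ∀ i ∈ S, g a i = u i) → (∀ a b, a ≠ b → ∃ i ∈ T, g a i ≠ g b i) →
    ∑ a, M (S ∪ T) (g a) ≤ M S u
  part : ∀ (S : Finset (Fin 7)) (i : Fin 7), i ∉ S → ∀ (u : Fin 7 → ℕ) (F : Finset ℕ),
    ∑ n ∈ F, M (insert i S) (Function.update u i n) ≤ M S u
  tail : ∀ (S : Finset (Fin 7)) (i : Fin 7), i ∉ S → ∀ (u : Fin 7 → ℕ) (N : ℕ), 0 < N →
    M S u ≤ ∑ n ∈ range N, M (insert i S) (Function.update u i n) + H {i} / Real.log (N + 1)
  indep : ∀ (S T : Finset (Fin 7)) (u : Fin 7 → ℕ),
    (M (S ∪ T) u - M S u * M T u) ^ 2 ≤ 4 * (H S + H T - H (S ∪ T))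
  func : ∀ (S T : Finset (Fin 7)) (u u' : Fin 7 → ℕ), (∀ i ∈ S, u i = u' i) →
    (∃ i ∈ T, u i ≠ u' i) → M (S ∪ T) u * M (S ∪ T) u' ≤ H (S ∪ T) - H S
  ent1 : ∀ (i : Fin 7) (F : Finset ℕ), ∑ n ∈ F, Real.negMulLog (M {i} (fun _ => n)) ≤ H {i}
  cond : ∀ (S T : Finset (Fin 7)) (ι : Type) (_ : Fintype ι) (g : ι → Fin 7 → ℕ),
    (∀ a b, a ≠ b → ∃ i ∈ T ∪ S, g a i ≠ g b i) →
    ∑ a, M (T ∪ S) (g a) * (Real.log (M S (g a)) - Real.log (M (T ∪ S) (g a))) ≤
      H (T ∪ S) - H S
  tl : ∀ u, H {0, 2} - H {2} ≤ (H {0, 1, 2} - H {1, 2}) + (1 - M {1} u) * H {0} +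
    Real.negMulLog (1 - M {1} u) + Real.negMulLog (M {1} u)
  bell : BellBound M

variable {Ω : Type*} [Fintype Ω] (P : Ω → ℝ) (V : Ω → Fin 7 → ℕ)

/-- marginal masses -/
def Mm (S : Finset (Fin 7)) (u : Fin 7 → ℕ) : ℝ := law P (fun ω => cut S (V ω)) (cut S u)

/-- marginal entropies -/
def Hm (S : Finset (Fin 7)) : ℝ := ent P (fun ω => cut S (V ω))

variable {P V}

lemma Mm_eq (S : Finset (Fin 7)) (u : Fin 7 → ℕ) :
    Mm P V S u = ∑ ω, if (∀ i ∈ S, V ω i = u i) then P ω else 0 := by
  unfold Mm law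
  refine sum_congr rfl fun ω _ => ?_
  by_cases h : ∀ i ∈ S, V ω i = u i
  · rw [if_pos h, if_pos (cut_eq.2 h)]
  · rw [if_neg h, if_neg (fun h' => h (cut_eq.1 h'))]

lemma Mm_law {T : Type*} (S : Finset (Fin 7)) (u : Fin 7 → ℕ) (f : Ω → T) (t : T)
    (h : ∀ ω, f ω = t ↔ ∀ i ∈ S, V ω i = u i) : Mm P V S u = law P f t := by
  unfold Mm
  exact law_congr fun ω => by rw [h, cut_eq]

lemma Hm_ent {T : Type*} (S : Finset (Fin 7)) (f : Ω → T)
    (h : ∀ ω ω', f ω = f ω' ↔ ∀ i ∈ S, V ω i = V ω' i) : Hm P V S = ent P f := by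
  unfold Hm
  exact ent_congr fun ω ω' => by rw [h, cut_eq]

lemma sum_split (hP : ∀ ω, 0 ≤ P ω) {ι : Type*} (F : Finset ι) (A : ι → Ω → Prop) (B : Ω → Prop)
    [∀ a ω, Decidable (A a ω)] [∀ ω, Decidable (B ω)]
    (hAB : ∀ a ∈ F, ∀ ω, A a ω → B ω)
    (hdis : ∀ a ∈ F, ∀ b ∈ F, a ≠ b → ∀ ω, ¬ (A a ω ∧ A b ω)) :
    ∑ a ∈ F, ∑ ω, (if A a ω then P ω else 0) ≤ ∑ ω, if B ω then P ω else 0 := by
  rw [sum_comm]
  refine sum_le_sum fun ω _ => ?_
  by_cases h : ∃ a ∈ F, A a ω
  · obtain ⟨a, ha, hA⟩ := h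
    rw [sum_eq_single_of_mem a ha fun b hb hba => if_neg fun hb' => hdis a ha b hb
      (Ne.symm hba) ω ⟨hA, hb'⟩, if_pos hA, if_pos (hAB a ha ω hA)]
  · rw [sum_eq_zero fun a ha => if_neg fun hA => h ⟨a, ha, hA⟩]
    split_ifs
    exacts [hP ω, le_rfl]

theorem isModel (hP : ∀ ω, 0 ≤ P ω) (h1 : ∑ ω, P ω = 1)
    (hV : ∀ i n, law P (fun ω => V ω i) n ≤ 1 / ((n : ℝ) + 1))
    (hXY : ∀ n m, law P (fun ω => (V ω 0, V ω 1)) (n, m) =
      law P (fun ω => V ω 0) n * law P (fun ω => V ω 1) m)
    (hbell : BellBound (Mm P V)) : IsModel (Mm P V) (Hm P V) where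
  nonneg := fun S u => law_nonneg hP _ _
  le_one := fun S u => h1 ▸ law_le_total hP _ _
  empty := fun u => by
    rw [Mm_eq, ← h1]
    refine sum_congr rfl fun ω _ => ?_
    rw [if_pos (by simp)]
  congr := fun S u u' h => by
    rw [Mm, Mm, cut_eq.2 h]
  mono := fun S T u h => by
    rw [Mm_eq, Mm_eq]
    refine sum_le_sum fun ω _ => ?_
    by_cases h2 : ∀ i ∈ S, V ω i = u i
    · rw [if_pos h2, if_pos fun i hi => h2 i (h hi)]
    · rw [if_neg h2]
      split_ifs
      exacts [hP ω, le_rfl]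
  super := fun S T ι _ g u hg hd => by
    simp_rw [Mm_eq]
    refine sum_split hP univ (fun a ω => ∀ i ∈ S ∪ T, V ω i = g a i)
      (fun ω => ∀ i ∈ S, V ω i = u i) ?_ ?_
    · intro a _ ω h i hi
      rw [← hg a i hi]
      exact h i (mem_union_left _ hi)
    · rintro a _ b _ hab ω ⟨ha, hb⟩
      obtain ⟨i, hi, hne⟩ := hd a b hab
      exact hne ((ha i (mem_union_right _ hi)).symm.trans (hb i (mem_union_right _ hi)))
  part := fun S i hi u F => by
    simp_rw [Mm_eq]
    refine sum_split hP F (fun n ω => ∀ j ∈ insert i S, V ω j = Function.update u i n j)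
      (fun ω => ∀ i ∈ S, V ω i = u i) ?_ ?_
    · intro n _ ω h j hj
      have hji : j ≠ i := fun h => hi (h ▸ hj)
      have := h j (mem_insert_of_mem hj)
      rwa [Function.update_of_ne hji] at this
    · rintro a _ b _ hab ω ⟨ha, hb⟩
      have e1 := ha i (mem_insert_self _ _)
      have e2 := hb i (mem_insert_self _ _)
      rw [Function.update_self] at e1 e2
      exact hab (e1.symm.trans e2)
  tail := fun S i hi u N hN => by
    have hlog : 0 < Real.log ((N : ℝ) + 1) := Real.log_pos (by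
      have : (1 : ℝ) ≤ N := by exact_mod_cast hN
      linarith)
    have e1 : Hm P V {i} = ent P (fun ω => V ω i) := Hm_ent _ _ fun ω ω' => by simp
    have e2 : (∑ ω, if N ≤ V ω i then P ω else 0) ≤ Hm P V {i} / Real.log (N + 1) := by
      rw [le_div_iff₀ hlog, e1, sum_mul]
      unfold ent
      refine sum_le_sum fun ω _ => ?_
      have hl1 : law P (fun ω => V ω i) (V ω i) ≤ 1 := h1 ▸ law_le_total hP _ _
      have hl0 : 0 ≤ law P (fun ω => V ω i) (V ω i) := law_nonneg hP _ _
      by_cases h : N ≤ V ω i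
      · rw [if_pos h]
        rcases (hP ω).eq_or_lt with h0 | h0
        · rw [← h0, zero_mul, zero_mul]
        · refine mul_le_mul_of_nonneg_left ?_ (hP ω)
          have h2 : 0 < law P (fun ω => V ω i) (V ω i) := law_pos hP (fun ω => V ω i) h0
          have h3 := Real.log_le_log h2 (hV i (V ω i))
          rw [Real.log_div one_ne_zero (by positivity), Real.log_one] at h3
          have h4 : Real.log ((N : ℝ) + 1) ≤ Real.log ((V ω i : ℝ) + 1) :=
            Real.log_le_log (by positivity) (by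
              have : (N : ℝ) ≤ V ω i := by exact_mod_cast h
              linarith)
          linarith
      · rw [if_neg h, zero_mul]
        refine mul_nonneg (hP ω) ?_
        have := Real.log_nonpos hl0 hl1
        linarith
    refine le_trans ?_ (add_le_add le_rfl e2)
    simp_rw [Mm_eq]
    rw [sum_comm, ← sum_add_distrib]
    refine sum_le_sum fun ω _ => ?_
    by_cases h : ∀ i ∈ S, V ω i = u i
    · rw [if_pos h]
      by_cases h2 : N ≤ V ω i
      · rw [if_pos h2]
        have : 0 ≤ ∑ x ∈ range N, (if ∀ i_1 ∈ insert i S, V ω i_1 = Function.update u i x i_1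
            then P ω else 0) := sum_nonneg fun n _ => by
          split_ifs
          exacts [hP ω, le_rfl]
        linarith
      · rw [if_neg h2, add_zero]
        have h3 : (if ∀ i_1 ∈ insert i S, V ω i_1 = Function.update u i (V ω i) i_1
            then P ω else 0) = P ω := by
          rw [if_pos]
          intro j hj
          rcases mem_insert.1 hj with rfl | hj
          · rw [Function.update_self]
          · have hji : j ≠ i := fun h => hi (h ▸ hj)
            rw [Function.update_of_ne hji]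
            exact h j hj
        calc P ω = (if ∀ i_1 ∈ insert i S, V ω i_1 = Function.update u i (V ω i) i_1
            then P ω else 0) := h3.symm
          _ ≤ _ := single_le_sum (f := fun n => if ∀ i_1 ∈ insert i S,
              V ω i_1 = Function.update u i n i_1 then P ω else 0) (fun n _ => by
                split_ifs
                exacts [hP ω, le_rfl]) (mem_range.2 (not_le.1 h2))
    · rw [if_neg h]
      refine add_nonneg (sum_nonneg fun n _ => ?_) ?_
      · split_ifs
        exacts [hP ω, le_rfl]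
      · split_ifs
        exacts [hP ω, le_rfl]
  indep := fun S T u => by
    have h := law_indep hP h1 (fun ω => cut S (V ω)) (fun ω => cut T (V ω)) (cut S u) (cut T u)
    have e1 : Mm P V (S ∪ T) u = law P (fun ω => (cut S (V ω), cut T (V ω))) (cut S u, cut T u) :=
      Mm_law _ _ _ _ fun ω => by
        rw [Prod.mk.injEq, cut_eq, cut_eq]
        constructor
        · rintro ⟨ha, hb⟩ i hi
          rcases mem_union.1 hi with hi | hi
          exacts [ha i hi, hb i hi]
        · intro h
          exact ⟨fun i hi => h i (mem_union_left _ hi), fun i hi => h i (mem_union_right _ hi)⟩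
    have e2 : Hm P V (S ∪ T) = ent P (fun ω => (cut S (V ω), cut T (V ω))) :=
      Hm_ent _ _ fun ω ω' => by
        rw [Prod.mk.injEq, cut_eq, cut_eq]
        constructor
        · rintro ⟨ha, hb⟩ i hi
          rcases mem_union.1 hi with hi | hi
          exacts [ha i hi, hb i hi]
        · intro h
          exact ⟨fun i hi => h i (mem_union_left _ hi), fun i hi => h i (mem_union_right _ hi)⟩
    rw [e1, e2]
    exact h
  func := fun S T u u' hS hT => by
    obtain ⟨i, hi, hne⟩ := hT
    have h := law_mul_le hP h1 (fun ω => cut T (V ω)) (fun ω => cut S (V ω))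
      (t := cut T u) (t' := cut T u') (fun h => hne (cut_eq.1 h i hi)) (cut S u)
    have e1 : ∀ w : Fin 7 → ℕ, Mm P V (S ∪ T) w =
        law P (fun ω => (cut T (V ω), cut S (V ω))) (cut T w, cut S w) := fun w =>
      Mm_law _ _ _ _ fun ω => by
        rw [Prod.mk.injEq, cut_eq, cut_eq]
        constructor
        · rintro ⟨ha, hb⟩ i hi
          rcases mem_union.1 hi with hi | hi
          exacts [hb i hi, ha i hi]
        · intro h
          exact ⟨fun i hi => h i (mem_union_right _ hi), fun i hi => h i (mem_union_left _ hi)⟩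
    have e2 : Hm P V (S ∪ T) = ent P (fun ω => (cut T (V ω), cut S (V ω))) :=
      Hm_ent _ _ fun ω ω' => by
        rw [Prod.mk.injEq, cut_eq, cut_eq]
        constructor
        · rintro ⟨ha, hb⟩ i hi
          rcases mem_union.1 hi with hi | hi
          exacts [hb i hi, ha i hi]
        · intro h
          exact ⟨fun i hi => h i (mem_union_right _ hi), fun i hi => h i (mem_union_left _ hi)⟩
    rw [e1, e1, e2, ← cut_eq.2 hS]
    exact h
  ent1 := fun i F => by
    have e1 : Hm P V {i} = ent P (fun ω => V ω i) := Hm_ent _ _ fun ω ω' => by simp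
    have e2 : ∀ n, Mm P V {i} (fun _ => n) = law P (fun ω => V ω i) n := fun n =>
      Mm_law _ _ _ _ fun ω => by simp
    simp_rw [e1, e2]
    exact sum_negMulLog_le hP h1 _ F
  cond := fun S T ι _ g hg => by
    have h := sum_cond_le hP (fun ω => cut T (V ω)) (fun ω => cut S (V ω))
      (univ.image fun a => (cut T (g a), cut S (g a)))
    have hinj : Function.Injective fun a => (cut T (g a), cut S (g a)) := by
      intro a b hab
      by_contra hne
      obtain ⟨i, hi, hne2⟩ := hg a b hne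
      simp only [Prod.mk.injEq, cut_eq] at hab
      rcases mem_union.1 hi with hi | hi
      exacts [hne2 (hab.1 i hi), hne2 (hab.2 i hi)]
    rw [sum_image fun a _ b _ hab => hinj hab] at h
    have e1 : ∀ w : Fin 7 → ℕ, Mm P V (T ∪ S) w =
        law P (fun ω => (cut T (V ω), cut S (V ω))) (cut T w, cut S w) := fun w =>
      Mm_law _ _ _ _ fun ω => by
        rw [Prod.mk.injEq, cut_eq, cut_eq]
        constructor
        · rintro ⟨ha, hb⟩ i hi
          rcases mem_union.1 hi with hi | hi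
          exacts [ha i hi, hb i hi]
        · intro h
          exact ⟨fun i hi => h i (mem_union_left _ hi), fun i hi => h i (mem_union_right _ hi)⟩
    have e2 : Hm P V (T ∪ S) = ent P (fun ω => (cut T (V ω), cut S (V ω))) :=
      Hm_ent _ _ fun ω ω' => by
        rw [Prod.mk.injEq, cut_eq, cut_eq]
        constructor
        · rintro ⟨ha, hb⟩ i hi
          rcases mem_union.1 hi with hi | hi
          exacts [ha i hi, hb i hi]
        · intro h
          exact ⟨fun i hi => h i (mem_union_left _ hi), fun i hi => h i (mem_union_right _ hi)⟩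
    simp_rw [e1]
    rw [e2]
    exact h
  tl := fun u => by
    have h := tail_bound hP h1 (fun ω => V ω 0) (fun ω => V ω 1) (fun ω => V ω 2) (u 1)
      (fun x => hXY x (u 1))
    have e0 : Hm P V {0} = ent P (fun ω => V ω 0) := Hm_ent _ _ fun ω ω' => by simp
    have e2 : Hm P V {2} = ent P (fun ω => V ω 2) := Hm_ent _ _ fun ω ω' => by simp
    have e02 : Hm P V {0, 2} = ent P (fun ω => (V ω 0, V ω 2)) := Hm_ent _ _ fun ω ω' => by simp
    have e12 : Hm P V {1, 2} = ent P (fun ω => (V ω 1, V ω 2)) := Hm_ent _ _ fun ω ω' => by simp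
    have e012 : Hm P V {0, 1, 2} = ent P (fun ω => (V ω 0, (V ω 1, V ω 2))) :=
      Hm_ent _ _ fun ω ω' => by simp
    have e1 : Mm P V {1} u = law P (fun ω => V ω 1) (u 1) := Mm_law _ _ _ _ fun ω => by simp
    rw [e0, e2, e02, e12, e012, e1]
    exact h
  bell := hbell

end Pool.Agent.Q234.CE
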