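import Pool.Agent.Q234.CE.Target

/-!
# The GHZ realization of the target distribution (helper234)
-/

set_option autoImplicit false

noncomputable section

namespace Pool.Agent.Q234.CE

open Finset Matrix
open scoped Kronecker ComplexOrder

/-- the GHZ vector (unnormalised) -/
def ghzVec (p : (Fin 2 × Fin 2) × Fin 2) : ℂ := if p.1.1 = p.1.2 ∧ p.1.2 = p.2 then 1 else 0

/-- the GHZ state -/
def ghz : Matrix ((Fin 2 × Fin 2) × Fin 2) ((Fin 2 × Fin 2) × Fin 2) ℂ :=
  (1 / 2 : ℂ) • vecMulVec ghzVec (star ghzVec)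

/-- phases of the two measurements -/
def kap (x : Fin 2) : ℂ := if x = 0 then 1 else Complex.I

/-- sign of an outcome -/
def sgn (a : Fin 2) : ℂ := if a = 0 then 1 else -1

/-- measurement vector -/
def phi (x a : Fin 2) : Fin 2 → ℂ := ![1, sgn a * kap x]

/-- effects -/
def eff (x a : Fin 2) : Matrix (Fin 2) (Fin 2) ℂ := (1 / 2 : ℂ) • vecMulVec (phi x a) (star (phi x a))

lemma half_nonneg : (0 : ℂ) ≤ 1 / 2 := by
  have : ((1 / 2 : ℝ) : ℂ) = 1 / 2 := by push_cast; ring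
  rw [← this]
  exact_mod_cast (by norm_num : (0 : ℝ) ≤ 1 / 2)

lemma ghz_psd : ghz.PosSemidef :=
  (posSemidef_vecMulVec_self_star ghzVec).smul half_nonneg

lemma eff_psd (x a : Fin 2) : (eff x a).PosSemidef :=
  (posSemidef_vecMulVec_self_star (phi x a)).smul half_nonneg

lemma ghz_trace : ghz.trace = 1 := by
  unfold ghz
  rw [trace_smul, trace]
  simp only [Fintype.sum_prod_type, Fin.sum_univ_two, diag_apply, vecMulVec_apply, ghzVec,
    Pi.star_apply]
  norm_num

lemma eff_apply (x a i j : Fin 2) : eff x a i j = 1 / 2 * (phi x a i * star (phi x a j)) := by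
  unfold eff
  rw [Matrix.smul_apply, vecMulVec_apply, Pi.star_apply, smul_eq_mul]

lemma phi0 (x a : Fin 2) : phi x a 0 = 1 := rfl
lemma phi1 (x a : Fin 2) : phi x a 1 = sgn a * kap x := rfl

lemma eff00 (x a : Fin 2) : eff x a 0 0 = 1 / 2 := by
  rw [eff_apply, phi0, star_one]; norm_num

lemma eff01 (x a : Fin 2) : eff x a 0 1 = 1 / 2 * (sgn a * star (kap x)) := by
  rw [eff_apply, phi0, phi1, star_mul']
  have : star (sgn a) = sgn a := by unfold sgn; split_ifs <;> simp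
  rw [this, one_mul]

lemma eff10 (x a : Fin 2) : eff x a 1 0 = 1 / 2 * (sgn a * kap x) := by
  rw [eff_apply, phi0, phi1, star_one, mul_one]

lemma eff11 (x a : Fin 2) : eff x a 1 1 = 1 / 2 := by
  rw [eff_apply, phi1, star_mul']
  fin_cases a <;> fin_cases x <;> simp [sgn, kap]

lemma eff_sum (x : Fin 2) : ∑ a, eff x a = 1 := by
  rw [Fin.sum_univ_two]
  ext i j
  rw [Matrix.add_apply]
  fin_cases i <;> fin_cases j
  · show eff x 0 0 0 + eff x 1 0 0 = _
    rw [eff00, eff00]; norm_num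
  · show eff x 0 0 1 + eff x 1 0 1 = _
    rw [eff01, eff01]; simp [sgn]
  · show eff x 0 1 0 + eff x 1 1 0 = _
    rw [eff10, eff10]; simp [sgn]
  · show eff x 0 1 1 + eff x 1 1 1 = _
    rw [eff11, eff11]; norm_num

lemma trace_ghz (A B C : Matrix (Fin 2) (Fin 2) ℂ) :
    trace (ghz * ((A ⊗ₖ B) ⊗ₖ C)) = 1 / 2 * (A 0 0 * B 0 0 * C 0 0 + A 0 1 * B 0 1 * C 0 1 +
      A 1 0 * B 1 0 * C 1 0 + A 1 1 * B 1 1 * C 1 1) := by
  unfold ghz
  rw [smul_mul, trace_smul, trace]
  simp only [Fintype.sum_prod_type, Fin.sum_univ_two, diag_apply, vecMulVec_apply, ghzVec,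
    Pi.star_apply, mul_apply, kroneckerMap_apply]
  norm_num
  ring

lemma trace_val (x y a b c : Fin 2) :
    trace (ghz * ((eff x a ⊗ₖ eff y b) ⊗ₖ eff (x + y) c)) =
      if c = a + b + wbit x y then 1 / 4 else 0 := by
  rw [trace_ghz, eff00, eff00, eff00, eff01, eff01, eff01, eff10, eff10, eff10, eff11, eff11,
    eff11]
  fin_cases x <;> fin_cases y <;> fin_cases a <;> fin_cases b <;> fin_cases c <;>
    simp [sgn, kap, wbit] <;> ring_nf <;> (try rw [Complex.I_sq]) <;> norm_num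

/-- the defining conditions of the sixteen points -/
lemma Pt_eq (v : Fin 7 → Fin 2) : Pt v = if v 2 = v 0 + v 1 ∧
    v 5 = v 3 + v 4 + wbit (v 0) (v 1) ∧ v 6 = wbit (v 0) (v 1) then 1 / 16 else 0 := by
  unfold Pt
  have key : ∀ q, pt q = v → q = (v 0, v 1, v 3, v 4) := by
    rintro ⟨x, y, a, b⟩ rfl
    rfl
  rw [sum_eq_single (v 0, v 1, v 3, v 4)]
  · refine if_congr ?_ rfl rfl
    constructor
    · intro h
      have h2 := congrFun h 2
      have h5 := congrFun h 5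
      have h6 := congrFun h 6
      exact ⟨h2.symm, h5.symm, h6.symm⟩
    · rintro ⟨h2, h5, h6⟩
      funext i
      fin_cases i
      · rfl
      · rfl
      · exact h2.symm
      · rfl
      · rfl
      · exact h5.symm
      · exact h6.symm
  · intro q _ hq
    rw [if_neg fun h => hq (key q h)]
  · intro h
    exact absurd (mem_univ _) h

lemma bits1 : ∀ a b c w : Fin 2, c = a + b + w → w = a + b + c := by decide
lemma bits2 : ∀ a b c w w' : Fin 2, w' = a + b + c → c = a + b + w → w' = w := by decide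

theorem Pt_quantum (v : Fin 7 → Fin 2) :
    ((Pt v : ℝ) : ℂ) = (((1 / 2 : ℝ) * (1 / 2 : ℝ) * (if v 2 = v 0 + v 1 then 1 else 0 : ℝ) : ℝ) : ℂ) *
      trace (ghz * ((eff (v 0) (v 3) ⊗ₖ eff (v 1) (v 4)) ⊗ₖ eff (v 2) (v 5))) *
      (((if v 6 = v 3 + v 4 + v 5 then 1 else 0 : ℝ) : ℝ) : ℂ) := by
  rw [Pt_eq]
  by_cases h2 : v 2 = v 0 + v 1
  · rw [h2, trace_val]
    by_cases h6 : v 6 = v 3 + v 4 + v 5
    · by_cases h5 : v 5 = v 3 + v 4 + wbit (v 0) (v 1)
      · have h6' := bits2 _ _ _ _ _ h6 h5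
        rw [if_pos ⟨rfl, h5, h6'⟩, if_pos h5, if_pos h6, if_pos rfl]
        push_cast
        norm_num
      · rw [if_neg fun h => h5 h.2.1, if_neg h5]
        simp
    · have h7 : ¬ (v 5 = v 3 + v 4 + wbit (v 0) (v 1) ∧ v 6 = wbit (v 0) (v 1)) := by
        rintro ⟨h8, h9⟩
        exact h6 (by rw [h9]; exact bits1 _ _ _ _ h8)
      rw [if_neg fun h => h7 h.2, if_neg h6]
      simp
  · rw [if_neg fun h => h2 h.1, if_neg h2]
    simp

end Pool.Agent.Q234.CE
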