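import Pool.Agent.Q234.CE.Ent

/-!
# No entropy in the tails of independent inputs (helper234)
-/

set_option autoImplicit false

noncomputable section

namespace Pool.Agent.Q234.CE

open Finset
open scoped Classical

variable {Ω TX TY TZ : Type*} [Fintype Ω] {P : Ω → ℝ}

lemma law_sub (Q R : Ω → ℝ) {T : Type*} (f : Ω → T) (t : T) :
    law (fun ω => Q ω - R ω) f t = law Q f t - law R f t := by
  unfold law
  rw [← sum_sub_distrib]
  refine sum_congr rfl fun ω _ => ?_
  split_ifs
  · rfl
  · simp

theorem tail_bound (hP : ∀ ω, 0 ≤ P ω) (h1 : ∑ ω, P ω = 1) (X : Ω → TX) (Y : Ω → TY) (Z : Ω → TZ)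
    (y0 : TY)
    (hind : ∀ x, law P (fun ω => (X ω, Y ω)) (x, y0) = law P X x * law P Y y0) :
    ent P (fun ω => (X ω, Z ω)) - ent P Z ≤
      (ent P (fun ω => (X ω, (Y ω, Z ω))) - ent P (fun ω => (Y ω, Z ω))) +
      (1 - law P Y y0) * ent P X + Real.negMulLog (1 - law P Y y0) +
      Real.negMulLog (law P Y y0) := by
  set η := 1 - law P Y y0 with hη
  have hY1 : law P Y y0 ≤ 1 := h1 ▸ law_le_total hP Y y0
  have hη0 : 0 ≤ η := by linarith
  let J : Ω → Prop := fun ω => Y ω = y0
  let P0 : Ω → ℝ := fun ω => if Y ω = y0 then 0 else P ω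
  have hP0 : ∀ ω, 0 ≤ P0 ω := fun ω => by
    simp only [P0]
    split_ifs
    exacts [le_rfl, hP ω]
  have hP0s : ∑ ω, P0 ω = η := by
    rw [hη, ← h1]
    unfold law
    rw [← sum_sub_distrib]
    refine sum_congr rfl fun ω _ => ?_
    simp only [P0]
    split_ifs <;> simp
  have hP0X : ∀ x, law P0 X x = η * law P X x := by
    intro x
    have e1 : law P0 X x = law P X x - law P (fun ω => (X ω, Y ω)) (x, y0) := by
      unfold law
      rw [← sum_sub_distrib]
      refine sum_congr rfl fun ω _ => ?_
      simp only [P0]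
      by_cases hx : X ω = x
      · by_cases hy : Y ω = y0
        · simp [hx, hy]
        · simp [hx, hy]
      · simp [hx]
    rw [e1, hind, hη]
    ring
  -- (i)
  have hi : ent P (fun ω => (X ω, Z ω)) ≤ ent P (fun ω => (J ω, (X ω, Z ω))) :=
    ent_le_pair hP J (fun ω => (X ω, Z ω))
  -- (ii)
  have hii : ent P (fun ω => (J ω, Z ω)) ≤ ent P J + ent P Z := ent_pair_le hP h1 J Z
  -- (iv)
  have hiv : ent P J = Real.negMulLog η + Real.negMulLog (law P Y y0) := by
    have e1 : law P J True = law P Y y0 := law_congr fun ω => by simp [J]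
    have e2 : law P J False = η := by
      rw [← hP0s]
      unfold law
      refine sum_congr rfl fun ω _ => ?_
      simp only [P0, J, eq_iff_iff, iff_false]
      by_cases hy : Y ω = y0
      · simp [hy]
      · simp [hy]
    have e3 : ent P J = ∑ ω, P ω * (-Real.log (law P J (J ω))) := rfl
    have e4 : ∀ ω, P ω * (-Real.log (law P J (J ω))) =
        (if Y ω = y0 then P ω else 0) * (-Real.log (law P Y y0)) + P0 ω * (-Real.log η) := by
      intro ω
      by_cases hy : Y ω = y0
      · have : J ω = True := by simp [J, hy]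
        rw [this, e1]
        simp [P0, hy]
      · have : J ω = False := by simp [J, hy]
        rw [this, e2]
        simp [P0, hy]
    rw [e3]
    simp_rw [e4]
    rw [sum_add_distrib, ← sum_mul, ← sum_mul, hP0s]
    have e5 : (∑ i, if Y i = y0 then P i else 0) = law P Y y0 := rfl
    rw [e5, Real.negMulLog, Real.negMulLog]
    ring
  -- (iii)
  have hiii : ent P (fun ω => (J ω, (X ω, Z ω))) - ent P (fun ω => (J ω, Z ω)) ≤
      (ent P (fun ω => (X ω, (Y ω, Z ω))) - ent P (fun ω => (Y ω, Z ω))) + η * ent P X := by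
    have e0 : ent P (fun ω => (J ω, (X ω, Z ω))) - ent P (fun ω => (J ω, Z ω)) =
        ∑ ω, P ω * (Real.log (law P (fun ω => (J ω, Z ω)) (J ω, Z ω)) -
          Real.log (law P (fun ω => (J ω, (X ω, Z ω))) (J ω, (X ω, Z ω)))) := by
      unfold ent
      rw [← sum_sub_distrib]
      refine sum_congr rfl fun ω _ => ?_
      ring
    have e1 : ∀ ω, P ω * (Real.log (law P (fun ω => (J ω, Z ω)) (J ω, Z ω)) -
          Real.log (law P (fun ω => (J ω, (X ω, Z ω))) (J ω, (X ω, Z ω)))) ≤
        P ω * (Real.log (law P (fun ω => (Y ω, Z ω)) (Y ω, Z ω)) -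
          Real.log (law P (fun ω => (X ω, (Y ω, Z ω))) (X ω, (Y ω, Z ω)))) +
        P0 ω * (Real.log (law P0 Z (Z ω)) -
          Real.log (law P0 (fun ω => (X ω, Z ω)) (X ω, Z ω))) := by
      intro ω
      by_cases hy : Y ω = y0
      · have a1 : law P (fun ω => (J ω, Z ω)) (J ω, Z ω) =
            law P (fun ω => (Y ω, Z ω)) (Y ω, Z ω) := law_congr fun ω' => by
          simp [J, hy]
        have a2 : law P (fun ω => (J ω, (X ω, Z ω))) (J ω, (X ω, Z ω)) =
            law P (fun ω => (X ω, (Y ω, Z ω))) (X ω, (Y ω, Z ω)) := law_congr fun ω' => by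
          simp only [J, hy, Prod.mk.injEq, eq_iff_iff]
          tauto
        rw [a1, a2]
        simp [P0, hy]
      · have a1 : law P (fun ω => (J ω, Z ω)) (J ω, Z ω) = law P0 Z (Z ω) := by
          unfold law
          refine sum_congr rfl fun ω' _ => ?_
          by_cases hy' : Y ω' = y0
          · simp [J, P0, hy, hy']
          · by_cases hz : Z ω' = Z ω
            · simp [J, P0, hy, hy', hz]
            · simp [hz]
        have a2 : law P (fun ω => (J ω, (X ω, Z ω))) (J ω, (X ω, Z ω)) =
            law P0 (fun ω => (X ω, Z ω)) (X ω, Z ω) := by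
          unfold law
          refine sum_congr rfl fun ω' _ => ?_
          by_cases hy' : Y ω' = y0
          · simp [J, P0, hy, hy']
          · by_cases hz : X ω' = X ω ∧ Z ω' = Z ω
            · simp [J, P0, hy, hy', hz]
            · simp [hz]
        rw [a1, a2]
        have a3 : P0 ω = P ω := by simp [P0, hy]
        rw [a3]
        have a4 : 0 ≤ P ω * (Real.log (law P (fun ω => (Y ω, Z ω)) (Y ω, Z ω)) -
            Real.log (law P (fun ω => (X ω, (Y ω, Z ω))) (X ω, (Y ω, Z ω)))) := by
          rcases (hP ω).eq_or_lt with h0 | h0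
          · rw [← h0, zero_mul]
          · refine mul_nonneg (hP ω) (sub_nonneg.2 (Real.log_le_log
              (law_pos hP (fun ω => (X ω, (Y ω, Z ω))) h0) ?_))
            exact law_pair_le hP X (fun ω => (Y ω, Z ω)) (X ω) (Y ω, Z ω)
        linarith
    have e2 := sum_le_sum fun ω (_ : ω ∈ univ) => e1 ω
    rw [← e0, sum_add_distrib] at e2
    have e3 : ent P (fun ω => (X ω, (Y ω, Z ω))) - ent P (fun ω => (Y ω, Z ω)) =
        ∑ ω, P ω * (Real.log (law P (fun ω => (Y ω, Z ω)) (Y ω, Z ω)) -
          Real.log (law P (fun ω => (X ω, (Y ω, Z ω))) (X ω, (Y ω, Z ω)))) :=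
      ent_diff X (fun ω => (Y ω, Z ω))
    have e4 : ent P0 (fun ω => (X ω, Z ω)) - ent P0 Z =
        ∑ ω, P0 ω * (Real.log (law P0 Z (Z ω)) -
          Real.log (law P0 (fun ω => (X ω, Z ω)) (X ω, Z ω))) := ent_diff X Z
    have e5 : ent P0 (fun ω => (X ω, Z ω)) - ent P0 Z ≤ η * ent P X := by
      rcases hη0.eq_or_lt with h0 | h0
      · have hz : ∀ ω, P0 ω = 0 := fun ω =>
          (sum_eq_zero_iff_of_nonneg fun ω _ => hP0 ω).1 (hP0s.trans h0.symm) ω (mem_univ ω)
        rw [e4, ← h0, zero_mul]
        refine le_of_eq (sum_eq_zero fun ω _ => ?_)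
        rw [hz ω, zero_mul]
      · have a1 := gibbs hP0 hP0s h0 X Z
        have a2 : ent P0 X = -(η * Real.log η) + η * ent P X := by
          have b1 : ent P0 X = ∑ ω, P0 ω * (-Real.log η) + ∑ ω, P0 ω * (-Real.log (law P X (X ω))) := by
            unfold ent
            rw [← sum_add_distrib]
            refine sum_congr rfl fun ω _ => ?_
            rcases (hP0 ω).eq_or_lt with h2 | h2
            · rw [← h2]; simp
            · have h3 : 0 < law P0 X (X ω) := law_pos hP0 X h2
              rw [hP0X] at h3 ⊢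
              have h4 : 0 < law P X (X ω) := pos_of_mul_pos_right h3 h0.le
              rw [Real.log_mul h0.ne' h4.ne']
              ring
          have b2 : ∑ ω, P0 ω * (-Real.log (law P X (X ω))) = η * ent P X := by
            rw [sum_group (P := P0) X (fun t => -Real.log (law P X t))]
            have b3 : ent P X = ∑ t ∈ img X, law P X t * (-Real.log (law P X t)) :=
              sum_group (P := P) X (fun t => -Real.log (law P X t))
            rw [b3, mul_sum]
            refine sum_congr rfl fun t _ => ?_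
            rw [hP0X]
            ring
          rw [b1, b2, ← sum_mul, hP0s]
          ring
        linarith
    linarith
  linarith

end Pool.Agent.Q234.CE
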