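import Pool.Agent.Q234.CE.Exact

/-!
# The entropies of the GHZ distribution (helper234)
-/

set_option autoImplicit false

noncomputable section

namespace Pool.Agent.Q234.CE

open Finset

/-- restriction to the nodes of `S` -/
def res {k : Fin 7 → ℕ} (S : Finset (Fin 7)) (v : ∀ i, Fin (k i)) : ∀ i : S, Fin (k i) :=
  fun i => v i

lemma res_eq {k : Fin 7 → ℕ} {S : Finset (Fin 7)} {v v' : ∀ i, Fin (k i)} :
    res S v = res S v' ↔ ∀ i ∈ S, v i = v' i := by
  constructor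
  · intro h i hi
    exact congrFun h ⟨i, hi⟩
  · intro h
    funext i
    exact h i.1 i.2

/-- the third bit as a function of the inputs -/
def wbit (x y : Fin 2) : Fin 2 := x * y + x + y

/-- the sixteen points -/
def pt (q : Fin 2 × Fin 2 × Fin 2 × Fin 2) : Fin 7 → Fin 2 :=
  ![q.1, q.2.1, q.1 + q.2.1, q.2.2.1, q.2.2.2, q.2.2.1 + q.2.2.2 + wbit q.1 q.2.1,
    wbit q.1 q.2.1]

/-- the uniform distribution on the sixteen points -/
def Pt (v : Fin 7 → Fin 2) : ℝ := ∑ q, if pt q = v then 1 / 16 else 0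

lemma Pt_nonneg (v : Fin 7 → Fin 2) : 0 ≤ Pt v := sum_nonneg fun q _ => by
  split_ifs
  · norm_num
  · exact le_rfl

lemma sum_Pt (F : (Fin 7 → Fin 2) → ℝ) : ∑ v, Pt v * F v = ∑ q, 1 / 16 * F (pt q) := by
  unfold Pt
  simp_rw [sum_mul]
  rw [sum_comm]
  refine sum_congr rfl fun q _ => ?_
  rw [sum_eq_single (pt q)]
  · rw [if_pos rfl]
  · intro v _ hv
    rw [if_neg (Ne.symm hv), zero_mul]
  · intro h
    exact absurd (mem_univ _) h

/-- number of points agreeing with `pt q` on `S` -/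
def cnt (S : Finset (Fin 7)) (q : Fin 2 × Fin 2 × Fin 2 × Fin 2) : ℕ :=
  (univ.filter fun q' => ∀ i ∈ S, pt q' i = pt q i).card

lemma law_Pt (S : Finset (Fin 7)) (q : Fin 2 × Fin 2 × Fin 2 × Fin 2) :
    law Pt (res (k := fun _ => 2) S) (res (k := fun _ => 2) S (pt q)) = (cnt S q : ℝ) / 16 := by
  classical
  have e1 : law Pt (res (k := fun _ => 2) S) (res (k := fun _ => 2) S (pt q)) =
      ∑ v, Pt v * (if ∀ i ∈ S, v i = pt q i then 1 else 0) := by
    unfold law
    refine sum_congr rfl fun v _ => ?_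
    by_cases h : ∀ i ∈ S, v i = pt q i
    · rw [if_pos h, if_pos (res_eq.2 h), mul_one]
    · rw [if_neg h, if_neg fun h' => h (res_eq.1 h'), mul_zero]
  rw [e1, sum_Pt, ← mul_sum, cnt, card_filter]
  push_cast
  ring

lemma ent_Pt (S : Finset (Fin 7)) : ent Pt (res (k := fun _ => 2) S) =
    ∑ q, 1 / 16 * (-Real.log ((cnt S q : ℝ) / 16)) := by
  unfold ent
  rw [sum_Pt fun v => -Real.log (law Pt (res (k := fun _ => 2) S) (res (k := fun _ => 2) S v))]
  refine sum_congr rfl fun q _ => ?_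
  rw [law_Pt]

lemma ent_const (S : Finset (Fin 7)) (N : ℕ) (h : ∀ q, cnt S q = N) :
    ent Pt (res (k := fun _ => 2) S) = -Real.log ((N : ℝ) / 16) := by
  rw [ent_Pt]
  simp_rw [h]
  rw [sum_const, card_univ]
  simp only [Fintype.card_prod, Fintype.card_fin, nsmul_eq_mul]
  push_cast
  ring

lemma ent_two (S : Finset (Fin 7)) (N M : ℕ)
    (h : ∀ q : Fin 2 × Fin 2 × Fin 2 × Fin 2, cnt S q = if wbit q.1 q.2.1 = 0 then N else M) :
    ent Pt (res (k := fun _ => 2) S) =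
      -(1 / 4 * Real.log ((N : ℝ) / 16)) - 3 / 4 * Real.log ((M : ℝ) / 16) := by
  rw [ent_Pt]
  simp_rw [h]
  have w00 : wbit 0 0 = 0 := by decide
  have w01 : ¬ (wbit 0 1 = 0) := by decide
  have w10 : ¬ (wbit 1 0 = 0) := by decide
  have w11 : ¬ (wbit 1 1 = 0) := by decide
  simp only [Fintype.sum_prod_type, Fin.sum_univ_two, if_pos w00, if_neg w01, if_neg w10,
    if_neg w11]
  ring

lemma cnt0 : ∀ q, cnt {0} q = 8 := by decide
lemma cnt1 : ∀ q, cnt {1} q = 8 := by decide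
lemma cnt2 : ∀ q, cnt {2} q = 8 := by decide
lemma cnt3 : ∀ q, cnt {3} q = 8 := by decide
lemma cnt4 : ∀ q, cnt {4} q = 8 := by decide
lemma cnt5 : ∀ q, cnt {5} q = 8 := by decide
lemma cnt6 : ∀ q : Fin 2 × Fin 2 × Fin 2 × Fin 2,
    cnt {6} q = if wbit q.1 q.2.1 = 0 then 4 else 12 := by decide
lemma cnt01 : ∀ q, cnt {0, 1} q = 4 := by decide
lemma cnt02 : ∀ q, cnt {0, 2} q = 4 := by decide
lemma cnt12 : ∀ q, cnt {1, 2} q = 4 := by decide
lemma cnt34 : ∀ q, cnt {3, 4} q = 4 := by decide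
lemma cnt35 : ∀ q, cnt {3, 5} q = 4 := by decide
lemma cnt45 : ∀ q, cnt {4, 5} q = 4 := by decide
lemma cnt012 : ∀ q, cnt {0, 1, 2} q = 4 := by decide
lemma cnt0126 : ∀ q, cnt {0, 1, 2, 6} q = 4 := by decide
lemma cnt01234 : ∀ q, cnt {0, 1, 2, 3, 4} q = 1 := by decide
lemma cnt346 : ∀ q : Fin 2 × Fin 2 × Fin 2 × Fin 2,
    cnt {3, 4, 6} q = if wbit q.1 q.2.1 = 0 then 1 else 3 := by decide
lemma cnt356 : ∀ q : Fin 2 × Fin 2 × Fin 2 × Fin 2,
    cnt {3, 5, 6} q = if wbit q.1 q.2.1 = 0 then 1 else 3 := by decide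
lemma cnt456 : ∀ q : Fin 2 × Fin 2 × Fin 2 × Fin 2,
    cnt {4, 5, 6} q = if wbit q.1 q.2.1 = 0 then 1 else 3 := by decide
lemma cnt345 : ∀ q : Fin 2 × Fin 2 × Fin 2 × Fin 2,
    cnt {3, 4, 5} q = if wbit q.1 q.2.1 = 0 then 1 else 3 := by decide
lemma cnt3456 : ∀ q : Fin 2 × Fin 2 × Fin 2 × Fin 2,
    cnt {3, 4, 5, 6} q = if wbit q.1 q.2.1 = 0 then 1 else 3 := by decide

lemma log8 : -Real.log (((8 : ℕ) : ℝ) / 16) = Real.log 2 := by
  rw [show (((8 : ℕ) : ℝ) / 16) = 2⁻¹ by norm_num, Real.log_inv, neg_neg]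

lemma log4 : -Real.log (((4 : ℕ) : ℝ) / 16) = 2 * Real.log 2 := by
  rw [show (((4 : ℕ) : ℝ) / 16) = (2 ^ 2)⁻¹ by norm_num, Real.log_inv, neg_neg, Real.log_pow]
  norm_num

lemma log1 : -Real.log (((1 : ℕ) : ℝ) / 16) = 4 * Real.log 2 := by
  rw [show (((1 : ℕ) : ℝ) / 16) = (2 ^ 4)⁻¹ by norm_num, Real.log_inv, neg_neg, Real.log_pow]
  norm_num

lemma log3 : -Real.log (((3 : ℕ) : ℝ) / 16) = 4 * Real.log 2 - Real.log 3 := by
  rw [show (((3 : ℕ) : ℝ) / 16) = 3 / 2 ^ 4 by norm_num,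
    Real.log_div (by norm_num) (by norm_num), Real.log_pow]
  push_cast
  ring

lemma log12 : -Real.log (((12 : ℕ) : ℝ) / 16) = 2 * Real.log 2 - Real.log 3 := by
  rw [show (((12 : ℕ) : ℝ) / 16) = 3 / 2 ^ 2 by norm_num,
    Real.log_div (by norm_num) (by norm_num), Real.log_pow]
  push_cast
  ring

theorem target : Target fun S => ent Pt (res (k := fun _ => 2) S) := by
  have e0 := (ent_const _ _ cnt0).trans log8
  have e1 := (ent_const _ _ cnt1).trans log8
  have e2 := (ent_const _ _ cnt2).trans log8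
  have e3 := (ent_const _ _ cnt3).trans log8
  have e4 := (ent_const _ _ cnt4).trans log8
  have e5 := (ent_const _ _ cnt5).trans log8
  have e01 := (ent_const _ _ cnt01).trans log4
  have e02 := (ent_const _ _ cnt02).trans log4
  have e12 := (ent_const _ _ cnt12).trans log4
  have e34 := (ent_const _ _ cnt34).trans log4
  have e35 := (ent_const _ _ cnt35).trans log4
  have e45 := (ent_const _ _ cnt45).trans log4
  have e012 := (ent_const _ _ cnt012).trans log4
  have e0126 := (ent_const _ _ cnt0126).trans log4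
  have e01234 := (ent_const _ _ cnt01234).trans log1
  have t6 := ent_two _ _ _ cnt6
  have t346 := ent_two _ _ _ cnt346
  have t356 := ent_two _ _ _ cnt356
  have t456 := ent_two _ _ _ cnt456
  have t345 := ent_two _ _ _ cnt345
  have t3456 := ent_two _ _ _ cnt3456
  have l4 := log4
  have l1 := log1
  have l3 := log3
  have l12 := log12
  have h6 : ent Pt (res (k := fun _ => 2) {6}) = 2 * Real.log 2 - 3 / 4 * Real.log 3 := by
    rw [t6]; linarith
  have hc : -(1 / 4 * Real.log (((1 : ℕ) : ℝ) / 16)) - 3 / 4 * Real.log (((3 : ℕ) : ℝ) / 16) =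
      4 * Real.log 2 - 3 / 4 * Real.log 3 := by linarith
  rw [hc] at t346 t356 t456 t345 t3456
  have b1 : 4 * Real.log 2 < 3 * Real.log 3 := by
    have : Real.log (2 ^ 4) < Real.log (3 ^ 3) := Real.log_lt_log (by norm_num) (by norm_num)
    rw [Real.log_pow, Real.log_pow] at this
    push_cast at this
    exact this
  have b2 : 3 * Real.log 3 < 8 * Real.log 2 := by
    have : Real.log (3 ^ 3) < Real.log (2 ^ 8) := Real.log_lt_log (by norm_num) (by norm_num)
    rw [Real.log_pow, Real.log_pow] at this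
    push_cast at this
    exact this
  refine ⟨?_, ?_, ?_, ?_, ?_, ?_, ?_, ?_, ?_, ?_, ?_, ?_, ?_, ?_, ?_, ?_, ?_, ?_, ?_, ?_, ?_⟩
  all_goals first
    | (simp only [e0, e1, e2, e3, e4, e5, e01, e02, e12, e34, e35, e45, e012, e0126, e01234, h6,
        t346, t356, t456, t345, t3456]; done)
    | (simp only [e0, e1, e2, e3, e4, e5, e01, e02, e12, e34, e35, e45, e012, e0126, e01234, h6,
        t346, t356, t456, t345, t3456]; linarith)
    | skip
  intro i hi
  fin_cases i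
  · exact e0
  · exact e1
  · exact e2
  · exact e3
  · exact e4
  · exact e5
  · exact absurd rfl hi

end Pool.Agent.Q234.CE
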